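import Mathlib

/-! The theorem of Rado and Horn on splitting a multiset of vectors into bases. -/

namespace Pool.Agent.Lib.MP_daea01_ag

open Finset Module

section rado

variable {κ V ι ρ : Type} [Field κ] [AddCommGroup V] [Module κ V] [FiniteDimensional κ V]
  [DecidableEq ι] [Fintype ι] [DecidableEq ρ] [Fintype ρ]

/-- rank of a subfamily -/
noncomputable def rk (κ : Type) [Field κ] [Module κ V] (c : ι → V) (X : Finset ι) : ℕ :=
  finrank κ (Submodule.span κ (c '' X))

variable {c : ι → V}

omit [DecidableEq ι] [Fintype ι] in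
theorem rk_mono {X Y : Finset ι} (h : X ⊆ Y) : rk κ c X ≤ rk κ c Y :=
  Submodule.finrank_mono (Submodule.span_mono (Set.image_mono h))

omit [Fintype ι] in
theorem rk_submod (X Y : Finset ι) : rk κ c (X ∪ Y) + rk κ c (X ∩ Y) ≤ rk κ c X + rk κ c Y := by
  have h := Submodule.finrank_sup_add_finrank_inf_eq (Submodule.span κ (c '' X))
    (Submodule.span κ (c '' Y))
  have h1 : Submodule.span κ (c '' ↑(X ∪ Y)) =
      Submodule.span κ (c '' X) ⊔ Submodule.span κ (c '' Y) := by
    rw [coe_union, Set.image_union, Submodule.span_union]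
  have h2 : Submodule.span κ (c '' ↑(X ∩ Y)) ≤
      Submodule.span κ (c '' X) ⊓ Submodule.span κ (c '' Y) :=
    le_inf (Submodule.span_mono (Set.image_mono (by simp)))
      (Submodule.span_mono (Set.image_mono (by simp)))
  have h3 := Submodule.finrank_mono h2
  unfold rk
  rw [h1]
  omega

omit [DecidableEq ι] [Fintype ι] [FiniteDimensional κ V] in
theorem rk_le_card (X : Finset ι) : rk κ c X ≤ #X := by
  classical
  unfold rk
  rw [← coe_image]
  exact (finrank_span_finset_le_card _).trans card_image_le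

/-- the condition of Rado for lists of colours -/
def Cond (κ : Type) [Field κ] [Module κ V] (c : ι → V) (A : ι → Finset ρ) : Prop :=
  ∀ J : Finset ι, #J ≤ ∑ j, rk κ c (J.filter fun i => j ∈ A i)

omit [Fintype ι] in
theorem Cond.step {A : ι → Finset ρ} (h : Cond κ c A) {i0 : ι} {a b : ρ} (hab : a ≠ b) :
    Cond κ c (Function.update A i0 ((A i0).erase a)) ∨
      Cond κ c (Function.update A i0 ((A i0).erase b)) := by
  by_contra hn
  simp only [Cond, not_or, not_forall, not_le] at hn
  obtain ⟨⟨J1, h1⟩, J2, h2⟩ := hn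
  have hm : ∀ (e : ρ) (J : Finset ι),
      ∑ j, rk κ c (J.filter fun i => j ∈ Function.update A i0 ((A i0).erase e) i) < #J →
        i0 ∈ J := fun e J hJ => by
    by_contra hi
    refine hJ.not_ge ((h J).trans (le_of_eq (sum_congr rfl fun j _ => ?_)))
    congr 1
    refine filter_congr fun i hi' => ?_
    rw [Function.update_of_ne (by rintro rfl; exact hi hi')]
  have m1 := hm _ _ h1
  have m2 := hm _ _ h2
  have key : ∑ j, rk κ c ((J1 ∪ J2).filter fun i => j ∈ A i) +
      ∑ j, rk κ c (((J1 ∩ J2).erase i0).filter fun i => j ∈ A i) ≤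
      ∑ j, rk κ c (J1.filter fun i => j ∈ Function.update A i0 ((A i0).erase a) i) +
      ∑ j, rk κ c (J2.filter fun i => j ∈ Function.update A i0 ((A i0).erase b) i) := by
    rw [← sum_add_distrib, ← sum_add_distrib]
    refine sum_le_sum fun j _ => le_trans (add_le_add (rk_mono ?_) (rk_mono ?_)) (rk_submod _ _)
    · intro i hi
      simp only [mem_filter, mem_union] at hi ⊢
      by_cases e : i = i0
      · subst e
        simp only [Function.update_self, mem_erase]
        by_cases ja : j = a
        · exact Or.inr ⟨m2, fun jb => hab (ja.symm.trans jb), hi.2⟩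
        · exact Or.inl ⟨m1, ja, hi.2⟩
      · simp only [Function.update_of_ne e]
        tauto
    · intro i hi
      simp only [mem_filter, mem_inter, mem_erase] at hi ⊢
      simp only [Function.update_of_ne hi.1.1]
      tauto
  have c1 := h (J1 ∪ J2)
  have c2 := h ((J1 ∩ J2).erase i0)
  have c3 := card_erase_add_one (mem_inter.2 ⟨m1, m2⟩)
  have c4 := card_union_add_card_inter J1 J2
  omega

theorem Cond.colour {A : ι → Finset ρ} (h : Cond κ c A) :
    ∃ col : ι → ρ, ∀ J : Finset ι, #J ≤ ∑ j, rk κ c (J.filter fun i => col i = j) := by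
  induction hn : ∑ i, #(A i) using Nat.strong_induction_on generalizing A with
  | _ n ih =>
  by_cases h1 : ∀ i, #(A i) ≤ 1
  · have h2 : ∀ i, ∃ j, A i = {j} := fun i => by
      refine card_eq_one.1 (le_antisymm (h1 i) (card_pos.2 ?_))
      rw [nonempty_iff_ne_empty]
      intro e
      have := h {i}
      have h3 : ∀ j, (({i} : Finset ι).filter fun i => j ∈ A i) = ∅ := fun j => by
        simp [filter_singleton, e]
      have h4 : rk κ c (∅ : Finset ι) ≤ 0 := rk_le_card ∅
      simp only [h3, Nat.le_zero.1 h4] at this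
      simp at this
    choose col hc using h2
    refine ⟨col, fun J => (h J).trans (le_of_eq (sum_congr rfl fun j _ => ?_))⟩
    congr 1
    refine filter_congr fun i _ => ?_
    rw [hc, mem_singleton, eq_comm]
  · push Not at h1
    obtain ⟨i0, h0⟩ := h1
    obtain ⟨a, ha, b, hb, hab⟩ := one_lt_card.1 h0
    have hlt : ∀ e ∈ A i0, ∑ i, #(Function.update A i0 ((A i0).erase e) i) < n := fun e he => by
      rw [← hn]
      refine sum_lt_sum (fun i _ => ?_) ⟨i0, mem_univ _, ?_⟩
      · by_cases e' : i = i0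
        · subst e'
          rw [Function.update_self]
          exact card_erase_le
        · rw [Function.update_of_ne e']
      · rw [Function.update_self]
        exact card_erase_lt_of_mem he
    rcases h.step (i0 := i0) hab with h' | h'
    · exact ih _ (hlt a ha) h' rfl
    · exact ih _ (hlt b hb) h' rfl

end rado

/-- ordered splittings of the multiset with multiplicities `a` into `r` blocks of size `N` -/
def Dec {m : ℕ} (a : Fin m → ℕ) (r N : ℕ) : Finset (Fin r × Fin N → Fin m) :=
  univ.filter fun γ => ∀ i, #(univ.filter fun q => γ q = i) = a i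

variable {m r N n : ℕ} {a : Fin m → ℕ}

theorem Dec.prod {M : Type*} [CommMonoid M] {γ : Fin r × Fin N → Fin m} (h : γ ∈ Dec a r N)
    (f : Fin m → M) : ∏ j, ∏ s, f (γ (j, s)) = ∏ i, f i ^ a i := by
  rw [← Fintype.prod_prod_type fun q => f (γ q), ← prod_fiberwise' univ γ f]
  refine prod_congr rfl fun i _ => ?_
  rw [prod_const, (mem_filter.1 h).2 i]

theorem Dec.perm {γ : Fin r × Fin N → Fin m} (h : γ ∈ Dec a r N) {π : Equiv.Perm (Fin m)}
    (hπ : ∀ i, a (π i) = a i) : π ∘ γ ∈ Dec a r N := by
  refine mem_filter.2 ⟨mem_univ _, fun i => ?_⟩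
  rw [← π.apply_symm_apply i, hπ, ← (mem_filter.1 h).2]
  congr 1
  refine filter_congr fun q _ => ?_
  rw [Function.comp_apply, π.apply_eq_iff_eq]

variable {κ : Type} [Field κ]

/-- a basis adapted to a proper subspace -/
theorem adapted (W : Submodule κ (Fin (n + 1) → κ)) (hW : finrank κ W < n + 1) :
    ∃ (Q : Matrix (Fin (n + 1)) (Fin (n + 1)) κ) (S : Finset (Fin (n + 1))), Q.det ≠ 0 ∧ 0 ∉ S ∧
      #S = finrank κ W ∧ ∀ x ∈ W, ∃ u : Fin (n + 1) → κ, (∀ b ∉ S, u b = 0) ∧
        x = Matrix.vecMul u Q := by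
  let bW := finBasis κ W
  let bQ := finBasis κ ((Fin (n + 1) → κ) ⧸ W)
  let b0 := bW.sumQuot bQ
  have hc : finrank κ ((Fin (n + 1) → κ) ⧸ W) + finrank κ W = n + 1 := by
    rw [Submodule.finrank_quotient_add_finrank]; simp
  let e0 : Fin (finrank κ W) ⊕ Fin (finrank κ ((Fin (n + 1) → κ) ⧸ W)) ≃ Fin (n + 1) :=
    Fintype.equivOfCardEq (by simp; omega)
  let q0 : Fin (finrank κ ((Fin (n + 1) → κ) ⧸ W)) := ⟨0, by omega⟩
  let e := e0.trans (Equiv.swap (e0 (Sum.inr q0)) 0)
  have he : e (Sum.inr q0) = 0 := by simp [e]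
  let b := b0.reindex e
  refine ⟨Matrix.of fun j => b j, univ.image fun i => e (Sum.inl i),
    ?_, ?_, by rw [card_image_of_injective _ fun i j h => by simpa using h]; simp, fun x hx => ⟨b.repr x, fun j hj => ?_, ?_⟩⟩
  · exact (Matrix.isUnit_iff_isUnit_det _).1
      (Matrix.linearIndependent_rows_iff_isUnit.1 b.linearIndependent) |>.ne_zero
  · rw [← he]
    simp
  · obtain ⟨j, rfl⟩ := e.surjective j
    rcases j with j | j
    · exact absurd (by simp) hj
    · rw [Basis.repr_reindex_apply, e.symm_apply_apply]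
      simp [b0, (Submodule.Quotient.mk_eq_zero W).2 hx]
  · ext j
    conv_lhs => rw [← b.sum_repr x]
    simp [Matrix.vecMul, dotProduct]

/-- a multiset of vectors splits into bases unless a subspace contains too many of them -/
theorem rado (c : Fin m → Fin (n + 1) → κ) (ha : ∑ i, a i = r * (n + 1)) :
    (∃ γ ∈ Dec a r (n + 1), ∀ j, (Matrix.of fun s => c (γ (j, s))).det ≠ 0) ∨
      ∃ (Q : Matrix (Fin (n + 1)) (Fin (n + 1)) κ) (S : Finset (Fin (n + 1))) (I : Finset (Fin m)),
        Q.det ≠ 0 ∧ 0 ∉ S ∧ r * #S < ∑ i ∈ I, a i ∧ ∀ i ∈ I, ∃ u : Fin (n + 1) → κ,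
          (∀ b ∉ S, u b = 0) ∧ c i = Matrix.vecMul u Q := by
  let ι := Σ i : Fin m, Fin (a i)
  let c' : ι → Fin (n + 1) → κ := fun q => c q.1
  have hι : Fintype.card ι = r * (n + 1) := by simp [ι, ha]
  have hrk : ∀ X, rk κ c' X ≤ n + 1 := fun X => (Submodule.finrank_le _).trans (by simp)
  by_cases h : Cond κ c' fun _ => (univ : Finset (Fin r))
  · left
    obtain ⟨col, hcol⟩ := h.colour
    have h1 := hcol univ
    rw [card_univ, hι] at h1
    have h2 : ∀ j, rk κ c' (univ.filter fun i => col i = j) = n + 1 := fun j => by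
      by_contra hne
      have := sum_lt_sum (s := univ) (f := fun j => rk κ c' (univ.filter fun i => col i = j))
        (g := fun _ => n + 1) (fun j _ => hrk _) ⟨j, mem_univ _, lt_of_le_of_ne (hrk _) hne⟩
      simp only [sum_const, card_univ, Fintype.card_fin, smul_eq_mul] at this
      omega
    have h3 : ∀ j, n + 1 ≤ #(univ.filter fun i => col i = j) := fun j => h2 j ▸ rk_le_card _
    have h4 : ∀ j, #(univ.filter fun i => col i = j) = n + 1 := fun j => by
      by_contra hne
      have := sum_lt_sum (s := univ) (g := fun j => #(univ.filter fun i => col i = j))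
        (f := fun _ => n + 1) (fun j _ => h3 _) ⟨j, mem_univ _, lt_of_le_of_ne (h3 _) (Ne.symm hne)⟩
      rw [← card_eq_sum_card_fiberwise (by simp), card_univ, hι] at this
      simp at this
    let e := fun j => (equivFinOfCardEq (h4 j)).symm
    let β : Fin r × Fin (n + 1) → ι := fun q => e q.1 q.2
    have hβ : ∀ q, col (β q) = q.1 := fun q => (mem_filter.1 (e q.1 q.2).2).2
    have hb : Function.Bijective β := by
      refine (Fintype.bijective_iff_injective_and_card β).2 ⟨?_, by simp [hι]⟩
      rintro ⟨j, s⟩ ⟨j', s'⟩ hq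
      obtain rfl : j = j' := by simpa [hβ] using congrArg col hq
      exact congrArg _ ((e j).injective (Subtype.ext hq))
    refine ⟨fun q => (β q).1, mem_filter.2 ⟨mem_univ _, fun i => ?_⟩, fun j => ?_⟩
    · rw [card_bijective β hb (t := univ.filter fun q : ι => q.1 = i) (by simp)]
      have : (univ.filter fun q : ι => q.1 = i) = univ.map (Function.Embedding.sigmaMk i) := by
        ext ⟨i', s⟩
        simp only [mem_filter, mem_univ, true_and, mem_map]
        exact ⟨fun h => by subst h; exact ⟨s, rfl⟩, fun ⟨_, h⟩ => (congrArg Sigma.fst h).symm⟩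
      rw [this, card_map, card_univ, Fintype.card_fin]
    · refine (Matrix.isUnit_iff_isUnit_det _).1 (Matrix.linearIndependent_rows_iff_isUnit.1
        (linearIndependent_of_top_le_span_of_card_eq_finrank ?_ (by simp))) |>.ne_zero
      have ht := Submodule.eq_top_of_finrank_eq ((h2 j).trans (by simp))
      rw [← ht]
      refine Submodule.span_mono ?_
      rintro _ ⟨q, hq, rfl⟩
      obtain ⟨s, hs⟩ := (e j).surjective ⟨q, hq⟩
      exact ⟨s, congrArg (fun t : (univ.filter fun i => col i = j) => c' t.1) hs⟩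
  · right
    simp only [Cond, not_forall, not_le, mem_univ, filter_true, sum_const, card_univ,
      Fintype.card_fin, smul_eq_mul] at h
    obtain ⟨J, hJ⟩ := h
    have hlt : rk κ c' J < n + 1 := by
      have := card_le_univ J
      rw [hι] at this
      exact lt_of_mul_lt_mul_left (hJ.trans_le this) (Nat.zero_le _)
    obtain ⟨Q, S, h1, h2, h3, h4⟩ := adapted _ hlt
    refine ⟨Q, S, J.image Sigma.fst, h1, h2, ?_, fun i hi => ?_⟩
    · rw [h3]
      refine hJ.trans_le ?_
      have : J ⊆ (J.image Sigma.fst).sigma fun _ => univ := fun q hq =>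
        mem_sigma.2 ⟨mem_image_of_mem _ hq, mem_univ _⟩
      refine (card_le_card this).trans_eq ?_
      rw [card_sigma]
      simp
    · obtain ⟨q, hq, rfl⟩ := mem_image.1 hi
      exact h4 _ (Submodule.subset_span ⟨q, hq, rfl⟩)

end Pool.Agent.Lib.MP_daea01_ag
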