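import Pool.Agent.Lib.MP_daea01_ag.Sec

/-! Descent of the sections to the base field. -/

namespace Pool.Agent.Lib.MP_daea01_ag

open WithZero Finset Pool.Agent.Lib.MP_5c318e_ag

section ov

variable {K L F : Type} [Field K] [Field L] [Field F] [Algebra K L] [Algebra L F] [Algebra K F]
  [IsScalarTower K L F] {v' : Valuation F ℤᵐ⁰} {v : Valuation L ℤᵐ⁰} {w : Valuation K ℤᵐ⁰}
  {e ε e' : ℕ}

theorem Over.trans (h : Over v' v ε) (h' : Over v w e) : Over v' w (ε * e) :=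
  ⟨Nat.mul_pos h.1 h'.1, fun a => by
    rw [IsScalarTower.algebraMap_apply K L F, h.2, h'.2, ← pow_mul, mul_comm]⟩

theorem Over.uniq (hs : Function.Surjective w) (h : Over v w e) (h' : Over v w e') : e = e' := by
  obtain ⟨t, ht⟩ := hs (exp (-1))
  have := (h.ord t).symm.trans (h'.ord t)
  rw [ord_of ht, mul_one, mul_one] at this
  exact_mod_cast this

theorem Over.mid (hs : Function.Surjective w) (h : Over v' w e') (h' : Over v' v ε) :
    ∃ e, Over v w e ∧ ε * e = e' := by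
  obtain ⟨e, he⟩ := over_of (v := v) hs fun a => by
    rw [← h'.le_one, ← IsScalarTower.algebraMap_apply, h.le_one]
  exact ⟨e, he, (h'.trans he).uniq hs h⟩

theorem Over.nontriv (hs : Function.Surjective w) (h : Over v' w e) :
    ¬∀ a : L, v' (algebraMap L F a) ≤ 1 := fun h1 => by
  obtain ⟨t, ht⟩ := hs (exp 1)
  have h2 := h1 (algebraMap K L t)
  rw [← IsScalarTower.algebraMap_apply, h.le_one, ht, ← exp_zero, exp_le_exp] at h2
  omega

theorem IsPrime.alg_ord (hv : IsPrime K v) {c : L} (hc : IsAlgebraic K c) (c0 : c ≠ 0) :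
    ord v c = 0 := by
  let _ : Algebra K v.valuationSubring :=
    ((algebraMap K L).codRestrict v.valuationSubring hv.div.const).toAlgebra
  have : IsScalarTower K v.valuationSubring L := .of_algebraMap_eq fun _ => rfl
  have h : ∀ c : L, IsAlgebraic K c → v c ≤ 1 := fun c hc => by
    obtain ⟨a, rfl⟩ := IsIntegrallyClosed.isIntegral_iff.1
      (hc.isIntegral.tower_top (A := v.valuationSubring))
    exact a.2
  have h1 := (ord_nonneg c0).2 (h c hc)
  have h2 := (ord_nonneg (inv_ne_zero c0)).2 (h _ hc.inv)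
  rw [ord_inv] at h2
  omega

/-- a real principal divisor without horizontal part comes from the base -/
theorem descend [CharZero K] [Algebra.EssFiniteType K L] {n : ℕ} {y : Fin n → L}
    (hy : IsTranscendenceBasis K y)
    (hK : ∀ a : L, IsAlgebraic K a → a ∈ Set.range (algebraMap K L)) (ρ : Lˣ →₀ ℝ)
    (h : ∀ v, IsPrime K v → prin ρ v = 0) : ∃ τ : Kˣ →₀ ℝ,
      ∀ (v : Valuation L ℤᵐ⁰) (w : Valuation K ℤᵐ⁰) (e : ℕ), Over v w e →
        prin ρ v = e * prin τ w := by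
  obtain ⟨N, c, μ, c0, hc⟩ := real_split ρ
  choose c' hc' using fun t => hK (c t) (alg_of_ord hy fun v hv => (hc v).2 (h v hv) t)
  have c1 : ∀ t, c' t ≠ 0 := fun t e => c0 t (by rw [← hc', e, map_zero])
  refine ⟨∑ t, Finsupp.single (Units.mk0 _ (c1 t)) (μ t), fun v w e he => ?_⟩
  rw [(hc v).1, prin_eq, map_sum, mul_sum]
  refine sum_congr rfl fun t _ => ?_
  rw [← hc', he.ord, Finsupp.linearCombination_single, Units.val_mk0, smul_eq_mul]
  push_cast
  ring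

end ov

variable {k K L E F : Type} [Field k] [Field K] [Field L] [Field E] [Field F] [CharZero k]
  [Algebra k K] [Algebra k L] [Algebra k E] [Algebra k F] [Algebra K L] [Algebra K E]
  [Algebra K F] [Algebra L F] [Algebra E F] [IsScalarTower k K E]
  [IsScalarTower k K F] [IsScalarTower k L F] [IsScalarTower k E F] [IsScalarTower K L F]
  [IsScalarTower K E F] [Algebra.IsAlgebraic K E] [FiniteDimensional L F] [IsGalois L F]
  [Algebra.EssFiniteType k F] {b n m r : ℕ}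

theorem core (hK : ∀ a : L, IsAlgebraic K a → a ∈ Set.range (algebraMap K L))
    {x : Fin b ⊕ Fin n → L} (hx : IsTranscendenceBasis k x) {z : Fin b → K}
    (hz : IsTranscendenceBasis k z) {y : Fin n → F} (hy : IsTranscendenceBasis E y)
    {C : Fin m → Fin (n + 1) → E} (h0 : ∀ i, form y (C i) ≠ 0) {a : Fin m → ℕ}
    (ha : ∑ i, a i = r * (n + 1)) {γ0 : Fin r × Fin (n + 1) → Fin m}
    (hγ0 : γ0 ∈ Dec a r (n + 1)) (hb0 : br C γ0 ≠ 0) (H : Subgroup (Equiv.Perm (Fin m)))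
    (hH : ∀ π ∈ H, ∀ i, a (π i) = a i)
    (gal : ∀ σ : F ≃ₐ[L] F, ∃ π ∈ H, ∃ (g : F) (u : Fin m → E),
      ∀ i, σ (form y (C i)) = g * algebraMap E F (u i) * form y (C (π i))) :
    ∃ (ψ : Lˣ) (s : Finset Kˣ), s.Nonempty ∧
      (∀ v' : Valuation F ℤᵐ⁰, IsPrime k v' → IsPrime K v' → ord v' (algebraMap L F ψ) =
        Nat.card H * (r * (ordForm k (Sum.elim (algebraMap K F ∘ z) y) v' -
          ordForm k (algebraMap L F ∘ x) v') - ∑ i, a i * ord v' (form y (C i)))) ∧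
      ∀ w : Valuation K ℤᵐ⁰, IsPrime k w →
        (∀ (v : Valuation L ℤᵐ⁰) (e : ℕ), IsPrime k v → Over v w e → ∀ φ ∈ s,
          e * (Nat.card H * r * (1 + ordForm k z w) - ord w (φ : K)) ≤
            Nat.card H * r * (1 + ordForm k x v) + ord v (ψ : L)) ∧
        ∃ (v : Valuation L ℤᵐ⁰) (e : ℕ), IsPrime k v ∧ Over v w e ∧ ∃ φ ∈ s,
          Nat.card H * r * (1 + ordForm k x v) + ord v (ψ : L) ≤
            e * (Nat.card H * r * (1 + ordForm k z w) - ord w (φ : K)) := by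
  classical
  have : CharZero E := charZero_of_injective_algebraMap (algebraMap k E).injective
  let _ : Fintype H := Fintype.ofFinite H
  rw [Nat.card_eq_fintype_card]
  have hx' : IsTranscendenceBasis k (algebraMap L F ∘ x) := hx.algebraMap_comp
  have hz' : IsTranscendenceBasis k (algebraMap K E ∘ z) := hz.algebraMap_comp
  have ez : algebraMap E F ∘ algebraMap K E ∘ z = algebraMap K F ∘ z :=
    funext fun i => (IsScalarTower.algebraMap_apply K E F _).symm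
  obtain ⟨D, hD⟩ := exists_dual hx'
  obtain ⟨J, hJ⟩ : ∃ J, J = Jac D (Sum.elim (algebraMap E F ∘ algebraMap K E ∘ z) y) := ⟨_, rfl⟩
  have J0 : J ≠ 0 := hJ ▸ hD.jac_ne hx' (basis_sum hz' hy)
  have l0 : ∀ i ∈ univ, form y (C i) ^ a i ≠ 0 := fun i _ => pow_ne_zero _ (h0 i)
  obtain ⟨U, hU⟩ : ∃ U, U = J ^ r / ∏ i, form y (C i) ^ a i := ⟨_, rfl⟩
  have U0 : U ≠ 0 := hU ▸ div_ne_zero (pow_ne_zero _ J0) (prod_ne_zero_iff.2 l0)
  have hsec : ∀ γ ∈ Dec a r (n + 1), sec y C J γ = algebraMap E F (br C γ) * U :=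
    fun γ hγ => hU ▸ sec_eq hγ J
  let Γ := Dec a r (n + 1)
  let idx : Γ → ℕ := fun γ => Fintype.equivFin Γ γ
  have hi : Function.Injective idx := Fin.val_injective.comp (Fintype.equivFin Γ).injective
  have hM : ∀ γ, idx γ ≤ Fintype.card Γ := fun γ => (Fintype.equivFin Γ γ).2.le
  obtain ⟨Θ, hΘ⟩ : ∃ Θ : ℕ → E, ∀ t, Θ t =
    ∏ h : H, ∑ γ : Γ, (t : E) ^ idx γ * br C ((h : Equiv.Perm (Fin m)) ∘ γ.1) := ⟨_, fun _ => rfl⟩
  have hgrid : ∀ (P : Valuation E ℤᵐ⁰), (∀ t : ℕ, t ≠ 0 → P t = 1) → ∃ γ ∈ Γ, br C γ ≠ 0 ∧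
      (∀ γ' ∈ Γ, P (br C γ') ≤ P (br C γ)) ∧ (∀ t, P (Θ t) ≤ P (br C γ ^ Fintype.card H)) ∧
      ∃ t ≤ Fintype.card H * Fintype.card Γ, P (Θ t) = P (br C γ ^ Fintype.card H) :=
    fun P hP => by
      obtain ⟨γ, hγ, h1⟩ := exists_max_image Γ (fun γ => P (br C γ)) ⟨γ0, hγ0⟩
      have h2 : br C γ ≠ 0 := (Valuation.pos_iff P).1
        (((Valuation.pos_iff P).2 hb0).trans_le (h1 γ0 hγ0))
      simp only [hΘ]
      exact ⟨γ, hγ, h2, h1, grid hP idx hi hM _ h2 (fun h γ => h1 _ (Dec.perm γ.2 (hH _ h.2)))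
        fun h => ⟨⟨_, Dec.perm hγ (hH _ (h⁻¹).2)⟩, by
          congr 2
          ext q
          simp⟩⟩
  have hΨ : ∀ t : ℕ, ∃ ψ : L, algebraMap L F ψ = algebraMap E F (Θ t) * U ^ Fintype.card H :=
    fun t => by
      have h1 : algebraMap E F (Θ t) * U ^ Fintype.card H =
          ∏ h : H, ∑ γ : Γ, (t : F) ^ idx γ * sec y C J ((h : Equiv.Perm (Fin m)) ∘ γ.1) := by
        rw [hΘ, map_prod, ← card_univ, ← prod_const, ← prod_mul_distrib]
        refine prod_congr rfl fun h _ => ?_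
        rw [map_sum, sum_mul]
        refine sum_congr rfl fun γ _ => ?_
        rw [hsec _ (Dec.perm γ.2 (hH _ h.2)), map_mul, map_pow, map_natCast, mul_assoc]
      refine (IsGalois.mem_range_algebraMap_iff_fixed _).2 fun σ => ?_
      obtain ⟨π, hπ, g, u, hσ⟩ := gal σ
      rw [h1, map_prod, ← Equiv.prod_comp (Equiv.mulLeft (⟨π, hπ⟩ : H))
        fun h : H => ∑ γ : Γ, (t : F) ^ idx γ * sec y C J ((h : Equiv.Perm (Fin m)) ∘ γ.1)]
      refine prod_congr rfl fun h _ => ?_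
      rw [map_sum]
      refine sum_congr rfl fun γ _ => ?_
      rw [map_mul, map_pow, map_natCast, hJ]
      refine congrArg _ (sec_map hz' hy hx' hD (σ.restrictScalars k) (fun i => σ.commutes _)
        (fun i => ?_) h0 hσ)
      rw [Function.comp_apply, ← IsScalarTower.algebraMap_apply,
        IsScalarTower.algebraMap_apply K L F]
      exact σ.commutes _
  choose ψ hψ using hΨ
  obtain ⟨t0, ht0, Θ0⟩ : ∃ t ≤ Fintype.card H * Fintype.card Γ, Θ t ≠ 0 := by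
    obtain ⟨γ, -, h1, -, -, t, h2, h3⟩ := hgrid 1 fun t ht =>
      Valuation.one_apply_of_ne_zero (Nat.cast_ne_zero.2 ht)
    refine ⟨t, h2, fun e => ?_⟩
    rw [e, map_zero, Valuation.one_apply_of_ne_zero (pow_ne_zero _ h1)] at h3
    exact zero_ne_one h3
  have Ψ0 := mul_ne_zero ((map_ne_zero (algebraMap E F)).2 Θ0) (pow_ne_zero (Fintype.card H) U0)
  have ψ0 : ψ t0 ≠ 0 := fun e => Ψ0 (by rw [← hψ, e, map_zero])
  have hs : ∀ t, ∃ s : Kˣ, Θ t ≠ 0 → Θ t = algebraMap K E s * Θ t0 := fun t => by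
    have h1 : algebraMap L F (ψ t / ψ t0) = algebraMap E F (Θ t / Θ t0) := by
      rw [map_div₀, map_div₀, hψ, hψ, mul_div_mul_right _ _ (pow_ne_zero _ U0)]
    obtain ⟨s, hs⟩ := hK (ψ t / ψ t0) ((isAlgebraic_algebraMap_iff (algebraMap L F).injective).1
      (h1 ▸ (Algebra.IsAlgebraic.isAlgebraic _).algebraMap))
    have h2 : Θ t = algebraMap K E s * Θ t0 := by
      rw [← div_eq_iff Θ0]
      refine (algebraMap E F).injective ?_
      rw [← h1, ← hs, ← IsScalarTower.algebraMap_apply, ← IsScalarTower.algebraMap_apply]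
    by_cases s0 : s = 0
    · exact ⟨1, fun h => absurd (by rw [h2, s0, map_zero, zero_mul]) h⟩
    · exact ⟨Units.mk0 s s0, fun _ => h2⟩
  choose su hsu using hs
  let T := (range (Fintype.card H * Fintype.card Γ + 1)).filter fun t => Θ t ≠ 0
  have hψ0 : ∀ v' : Valuation F ℤᵐ⁰, ord v' (algebraMap L F (ψ t0)) =
      ord v' (algebraMap E F (Θ t0)) + Fintype.card H * ord v' U := fun v' => by
    rw [hψ, ord_mul ((map_ne_zero _).2 Θ0) (pow_ne_zero _ U0), ord_pow]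
  have nat1 : ∀ P : Valuation E ℤᵐ⁰, IsPrime k P → ∀ t : ℕ, t ≠ 0 → P t = 1 := fun P hP t ht => by
    simpa using hP.const (a := t) (Nat.cast_ne_zero.2 ht)
  have key : ∀ {v' : Valuation F ℤᵐ⁰} {v : Valuation L ℤᵐ⁰} {P : Valuation E ℤᵐ⁰}
      {w : Valuation K ℤᵐ⁰} {ε e e1 e2 : ℕ}, IsPrime k v' → IsPrime k v → IsPrime k P →
      IsPrime k w → Over v' v ε → Over v' P e2 → Over P w e1 → e2 * e1 = ε * e →
      ∀ γ ∈ Γ, br C γ ≠ 0 → ∀ t, Θ t ≠ 0 →
      ε * (Fintype.card H * r * (1 + ordForm k x v) + ord v (ψ t0) -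
        e * (Fintype.card H * r * (1 + ordForm k z w) - ord w (su t : K))) =
      Fintype.card H * (r * (1 + ordForm k (algebraMap L F ∘ x) v') + ord v' (sec y C J γ) -
        r * (e2 * (1 + ordForm k (algebraMap K E ∘ z) P))) +
      e2 * (ord P (Θ t) - ord P (br C γ ^ Fintype.card H)) := by
    intro v' v P w ε e e1 e2 p1 p2 p3 p4 o1 o2 o3 he γ hγ hb t ht
    have h1 := hψ0 v'
    have h2 : (e2 : ℤ) * e1 = ε * e := by exact_mod_cast he
    rw [o1.ord, o2.ord] at h1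
    rw [ram_eq p1 p2 o1 hx, ram_eq p3 p4 o3 hz, hsec γ hγ, ord_mul ((map_ne_zero _).2 hb) U0,
      o2.ord, ord_pow, hsu t ht, ord_mul ((map_ne_zero _).2 (su t).ne_zero) Θ0, o3.ord]
    linear_combination h1 + (Fintype.card H * r * (1 + ordForm k z w) - ord w (su t : K)) * h2
  refine ⟨Units.mk0 _ ψ0, T.image su, ⟨_, mem_image_of_mem _ (mem_filter.2
    ⟨mem_range.2 (Nat.lt_succ_of_le ht0), Θ0⟩)⟩, fun v' p1 p2 => ?_, fun w hw => ⟨?_, ?_⟩⟩
  · rw [Units.val_mk0, hψ0, p2.alg_ord (Algebra.IsAlgebraic.isAlgebraic _).algebraMap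
      ((map_ne_zero _).2 Θ0), hU, ord_div (pow_ne_zero _ J0) (prod_ne_zero_iff.2 l0),
      ord_prod _ l0, ← ez, ordForm_change p1 hx' hD (basis_sum hz' hy), ← hJ]
    simp only [ord_pow]
    ring
  · intro v e hv o φ hφ
    obtain ⟨t, ht, rfl⟩ := mem_image.1 hφ
    have ht' := (mem_filter.1 ht).2
    obtain ⟨v', ε, p1, o1, -⟩ := exists_vert (F := F) hv hx basis_empty
    obtain ⟨P, e2, p3, o2⟩ := p1.restrict hz' hy ((o1.trans o).nontriv hw.1)
    obtain ⟨e1, o3, he⟩ := (o1.trans o).mid hw.1 o2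
    obtain ⟨γ, hγ, hb, -, h1, -⟩ := hgrid P (nat1 P p3)
    have h2 := key p1 hv p3 hw o1 o2 o3 he γ hγ hb t ht'
    have h3 := sub_nonneg.2 (lower hz' hy hx' hD p1 p3 o2 hb)
    have h4 := sub_nonneg.2 ((ord_le_iff ht' (pow_ne_zero _ hb)).2 (h1 t))
    rw [← hJ] at h3
    refine sub_nonneg.1 (nonneg_of_mul_nonneg_right (h2 ▸ ?_) (Int.natCast_pos.2 o1.1))
    positivity
  · have : CharZero K := charZero_of_injective_algebraMap (algebraMap k K).injective
    obtain ⟨y1, hy1⟩ := exists_basis_of_trdeg (k := K) (F := F) (ι := Fin n) (by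
      rw [← trdeg_add_eq K E, trdeg_eq_zero, zero_add, trdeg_card hy])
    obtain ⟨v0, e0, p0, o0, -⟩ := exists_vert hw hz hy1
    obtain ⟨P, e3, p3, o4⟩ := p0.restrict hz' hy (o0.nontriv hw.1)
    obtain ⟨e1, o3, -⟩ := o0.mid hw.1 o4
    obtain ⟨v', e2, p1, o2, γ, hγ, hb, h3⟩ := extremal hz' hy hx' hD p3 ha hγ0 hb0
    obtain ⟨v, ε, hv, o1⟩ := p1.restrict_alg hx
    obtain ⟨e, o, he⟩ := (o2.trans o3).mid hw.1 o1
    obtain ⟨γ1, -, hb1, h5, -, t, ht, h1⟩ := hgrid P (nat1 P p3)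
    have ht' : Θ t ≠ 0 := (Valuation.ne_zero_iff P).1
      (h1 ▸ (Valuation.ne_zero_iff P).2 (pow_ne_zero _ hb1))
    refine ⟨v, e, hv, o, _, mem_image_of_mem _ (mem_filter.2
      ⟨mem_range.2 (Nat.lt_succ_of_le ht), ht'⟩), ?_⟩
    have h2 := key p1 hv p3 hw o1 o2 o3 he.symm γ hγ hb t ht'
    have h4 := sub_nonpos.2 ((ord_le_iff (v := P) (pow_ne_zero (Fintype.card H) hb) ht').2 (by
      rw [h1, map_pow, map_pow]
      exact pow_le_pow_left' (h5 γ hγ) _))
    rw [← hJ, ← sub_nonpos] at h3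
    refine sub_nonpos.1 (nonpos_of_mul_nonpos_right (h2 ▸ ?_) (Int.natCast_pos.2 o1.1))
    exact add_nonpos (mul_nonpos_of_nonneg_of_nonpos (Int.natCast_nonneg _) h3)
      (mul_nonpos_of_nonneg_of_nonpos (Int.natCast_nonneg _) h4)

end Pool.Agent.Lib.MP_daea01_ag
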