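import Mathlib

/-!
Valuation theoretic definitions for adjunction along a fibration: prime divisors over a variety,
canonical divisors, log discrepancies, the divisorial and the moduli part, free b-divisors.
-/

namespace Pool.Agent.Lib.MP_daea01_ag

open WithZero

section one

variable (k : Type) {F : Type} [Field k] [Field F] [Algebra k F]

/-- Prime divisors over a variety with function field `F / k`: normalised discrete valuations,
trivial on `k`, whose residue field has transcendence degree `trdeg F - 1`. -/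
def IsPrime (v : Valuation F ℤᵐ⁰) : Prop :=
  Function.Surjective v ∧ ∃ (n : ℕ) (y : Fin n → F),
    ((n + 1 : ℕ) : Cardinal) = Algebra.trdeg k F ∧
    ∀ p : MvPolynomial (Fin n) k, p ≠ 0 → v (MvPolynomial.aeval y p) = 1

/-- order of vanishing of a function -/
noncomputable def ord (v : Valuation F ℤᵐ⁰) (f : F) : ℤ := -log (v f)

/-- Order of vanishing of the form `dx_1 ∧ ... ∧ dx_d`: the largest value of minus the order of a
Jacobian determinant of regular functions with respect to `x`. -/
noncomputable def ordForm {ι : Type} [Fintype ι] [DecidableEq ι] (x : ι → F)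
    (v : Valuation F ℤᵐ⁰) : ℤ :=
  sSup {N : ℤ | ∃ (D : ι → Derivation k F F) (f : ι → F),
    (∀ i j, D i (x j) = if j = i then 1 else 0) ∧ (∀ j, v (f j) ≤ 1) ∧
      v (Matrix.of fun j i => D i (f j)).det = exp N}

/-- multiplicity of a real combination of principal divisors -/
noncomputable def prin (ρ : Fˣ →₀ ℝ) (v : Valuation F ℤᵐ⁰) : ℝ :=
  ρ.sum fun φ c => c * ord v (φ : F)

/-- log discrepancy of the crepant b-divisor `D` with `div (dx) + D = div ρ` -/
noncomputable def logDisc {ι : Type} [Fintype ι] [DecidableEq ι] (x : ι → F) (ρ : Fˣ →₀ ℝ)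
    (v : Valuation F ℤᵐ⁰) : ℝ :=
  1 + ordForm k x v - prin ρ v

/-- The b-divisor `M` is the pullback of a base point free Cartier divisor on a model: it is the
divisor of poles of a finite set of functions. -/
def BFree (M : Valuation F ℤᵐ⁰ → ℝ) : Prop :=
  ∃ s : Finset Fˣ, s.Nonempty ∧ ∀ w, IsPrime k w →
    IsGreatest ((fun φ : Fˣ => (-ord w (φ : F) : ℝ)) '' s) (M w)

end one

section two

variable (k : Type) {K L : Type} [Field k] [Field K] [Field L] [Algebra k K] [Algebra k L]
  [Algebra K L]

/-- `v` lies over `w` with ramification index `e` -/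
def Over (v : Valuation L ℤᵐ⁰) (w : Valuation K ℤᵐ⁰) (e : ℕ) : Prop :=
  0 < e ∧ ∀ a : K, v (algebraMap K L a) = w a ^ e

variable {ι κ : Type} [Fintype ι] [DecidableEq ι] [Fintype κ] [DecidableEq κ]

/-- Log canonical threshold of the pullback of the prime divisor `w`, over its generic point, for
the crepant b-divisor `D` with `div (dx) + D = f^* Λ + div ρ`. -/
noncomputable def lct (x : ι → L) (ρ : Lˣ →₀ ℝ) (Λ : Valuation K ℤᵐ⁰ → ℝ)
    (w : Valuation K ℤᵐ⁰) : ℝ :=
  sSup {t : ℝ | ∀ v e, IsPrime k v → Over v w e → t * e ≤ logDisc k x ρ v - e * Λ w}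

/-- the moduli part `Λ - div (dz) - D_div` -/
noncomputable def moduli (x : ι → L) (z : κ → K) (ρ : Lˣ →₀ ℝ) (Λ : Valuation K ℤᵐ⁰ → ℝ)
    (w : Valuation K ℤᵐ⁰) : ℝ :=
  Λ w - ordForm k z w - (1 - lct k x ρ Λ w)

end two

end Pool.Agent.Lib.MP_daea01_ag
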