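import Pool.Agent.Lib.MP_daea01_ag.Val
import Pool.Agent.Lib.MP_5c318e_ag.Idx

/-! Existence of prime divisors: coordinate divisors and Gauss extensions. -/

namespace Pool.Agent.Lib.MP_daea01_ag

open WithZero Pool.Agent.Lib.MP_5c318e_ag MvPolynomial

variable {k F : Type} [Field k] [Field F] [Algebra k F] {v : Valuation F ℤᵐ⁰}

theorem val_dom {A κ : Type} [CommRing A] [CommRing κ] [IsDomain κ] (φ : A →+* F) (ψ : A →+* κ)
    (h : Function.Injective φ) :
    ∃ O : ValuationSubring F, (∀ a, φ a ∈ O) ∧ ∀ a, O.valuation (φ a) < 1 ↔ ψ a = 0 := by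
  have : (RingHom.ker ψ).IsPrime := RingHom.ker_isPrime _
  have hu : ∀ y : (RingHom.ker ψ).primeCompl, IsUnit (φ y) := fun y =>
    IsUnit.mk0 _ fun e => y.2 (by rw [h (e.trans φ.map_zero.symm)]; exact zero_mem _)
  obtain ⟨O, h1, hl⟩ := IsLocalRing.exists_factor_valuationRing
    (IsLocalization.lift (S := Localization.AtPrime (RingHom.ker ψ)) hu)
  let G : Localization.AtPrime (RingHom.ker ψ) →+* O :=
    (IsLocalization.lift (S := Localization.AtPrime (RingHom.ker ψ)) hu).codRestrict O.toSubring h1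
  have : IsLocalHom G := hl
  have e : ∀ a, (G (algebraMap A _ a) : F) = φ a := fun a => IsLocalization.lift_eq hu a
  refine ⟨O, fun a => e a ▸ (G _).2, fun a => ?_⟩
  rw [← e, ← O.valuation_lt_one_iff, ← RingHom.mem_ker,
    ← IsLocalization.AtPrime.to_map_mem_maximal_iff (Localization.AtPrime (RingHom.ker ψ))
      (RingHom.ker ψ) a]
  simp only [IsLocalRing.mem_maximalIdeal, mem_nonunits_iff, isUnit_map_iff]

variable {ι κ : Type} [Fintype ι] [DecidableEq ι] [Fintype κ] [DecidableEq κ]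

theorem exists_prime_of [Algebra.EssFiniteType k F] {f : ι → F} (hf : IsTranscendenceBasis k f)
    (O : ValuationSubring F) {i0 : ι} (hlt : O.valuation (f i0) < 1)
    (hres : RIndC k O.valuation fun j : {j // j ≠ i0} => f j) :
    ∃ v : Valuation F ℤᵐ⁰, IsPrime k v ∧ v.valuationSubring = O := by
  let F0 := IntermediateField.adjoin k (Set.range f)
  have : Algebra.IsAlgebraic F0 F := hf.isAlgebraic_field
  have : Algebra.EssFiniteType F0 F := .of_comp k _ _
  have hfin : Module.Finite F0 F := Algebra.finite_of_essFiniteType_of_isAlgebraic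
  have : Module.Finite F0.toSubfield F := hfin
  obtain ⟨e, he, hi⟩ := idx_exists (F := F0.toSubfield) ⊤
  have hp : 0 < O.valuation (f i0) := (Valuation.pos_iff _).2 (hf.1.ne_zero i0)
  have h1 : ∀ x : F, x ≠ 0 → ∃ n : ℤ, O.valuation x ^ e = O.valuation (f i0) ^ n := fun x hx => by
    obtain ⟨g, hg, h⟩ := hi _ O.valuation x trivial
    have g0 : g ≠ 0 := by
      rintro rfl
      exact pow_ne_zero e ((Valuation.ne_zero_iff _).2 hx) (h.trans (map_zero _))
    obtain ⟨n, hn⟩ := key_val (k0 := kR k F) hlt (RIndC_iff_fieldRange.1 hres) hg g0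
    exact ⟨n, h.trans hn⟩
  let H : AddSubgroup ℤ :=
    { carrier := {n | ∃ a : F, O.valuation a ^ e = O.valuation (f i0) ^ n}
      zero_mem' := ⟨1, by simp⟩
      add_mem' := by
        rintro m n ⟨a, ha⟩ ⟨b, hb⟩
        exact ⟨a * b, by rw [map_mul, mul_pow, ha, hb, zpow_add₀ hp.ne']⟩
      neg_mem' := by
        rintro n ⟨a, ha⟩
        exact ⟨a⁻¹, by rw [map_inv₀, inv_pow, ha, zpow_neg]⟩ }
  obtain ⟨μ, hμ⟩ := Int.subgroup_cyclic H
  have h2 : |μ| ∈ H := by
    rw [abs_mem_iff, hμ]
    exact AddSubgroup.subset_closure rfl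
  obtain ⟨t, ht⟩ := h2
  have key : ∀ a : F, a ≠ 0 → ∃ n : ℤ, O.valuation a = O.valuation t ^ n := fun a ha => by
    obtain ⟨n, hn⟩ := h1 a ha
    have h2 : n ∈ AddSubgroup.closure {μ} := hμ ▸ (⟨a, hn⟩ : n ∈ H)
    obtain ⟨q, rfl⟩ := AddSubgroup.mem_closure_singleton.1 h2
    refine ⟨q * μ.sign, (pow_left_inj₀ zero_le zero_le he.ne').1 ?_⟩
    rw [hn, ← zpow_natCast, ← zpow_mul, mul_comm, zpow_mul, zpow_natCast, ht, ← zpow_mul,
      smul_eq_mul]
    congr 1
    rw [mul_left_comm, mul_comm |μ|, Int.sign_mul_abs]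
  have hμ0 : μ ≠ 0 := by
    rintro rfl
    have h2 : (e : ℤ) ∈ AddSubgroup.closure {(0 : ℤ)} :=
      hμ ▸ (⟨f i0, (zpow_natCast _ _).symm⟩ : (e : ℤ) ∈ H)
    obtain ⟨q, hq⟩ := AddSubgroup.mem_closure_singleton.1 h2
    simp at hq
    omega
  have t0 : t ≠ 0 := by
    rintro rfl
    rw [map_zero, zero_pow he.ne'] at ht
    exact zpow_ne_zero _ hp.ne' ht.symm
  have t1 : O.valuation t < 1 := by
    rw [← pow_lt_one_iff_of_nonneg zero_le he.ne', ht]
    exact zpow_lt_one₀ hp hlt (abs_pos.2 hμ0)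
  have h : Adp k O (Function.update f i0 t) i0 := by
    refine adp_of_res ?_ ?_ ?_ ?_ (trdeg_card hf).le
    · rwa [Function.update_self]
    · rwa [Function.update_self]
    · rwa [Function.update_self]
    · refine (congrArg (RIndC k O.valuation) ?_).mp hres
      ext j
      rw [Function.update_of_ne j.2]
  have := h.dvr
  obtain ⟨v, hs, hv⟩ := exists_norm O
  exact ⟨v, isPrime_of hs (hv ▸ h.divisorial), hv⟩

/-- a prime divisor over the divisor of one coordinate -/
theorem exists_coord [Algebra.EssFiniteType k F] {f : ι → F} (hf : IsTranscendenceBasis k f)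
    (i0 : ι) : ∃ v : Valuation F ℤᵐ⁰, IsPrime k v ∧ v (f i0) < 1 ∧
      RIndC k v fun j : {j // j ≠ i0} => f j := by
  let ψ : MvPolynomial ι k →ₐ[k] MvPolynomial {j // j ≠ i0} k :=
    aeval fun j => if h : j = i0 then 0 else X ⟨j, h⟩
  obtain ⟨O, h1, h2⟩ := val_dom (aeval f : MvPolynomial ι k →ₐ[k] F).toRingHom ψ.toRingHom hf.1
  have hlt : O.valuation (f i0) < 1 := by simpa using (h2 (X i0)).2 (by simp [ψ])
  have hres : RIndC k O.valuation fun j : {j // j ≠ i0} => f j := fun p hp => by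
    have e1 : ψ (rename Subtype.val p) = p := by
      have : ψ.comp (rename Subtype.val) = AlgHom.id k _ := by
        ext j : 1
        simp [ψ, j.2]
      exact DFunLike.congr_fun this p
    have e2 : aeval (fun j : {j // j ≠ i0} => f j) p = aeval f (rename Subtype.val p) :=
      (aeval_rename _ _ _).symm
    rw [e2]
    exact le_antisymm ((O.valuation_le_one_iff _).2 (h1 _))
      (not_lt.1 fun h => hp (e1.symm.trans ((h2 _).1 h)))
  obtain ⟨v, hv, rfl⟩ := exists_prime_of hf O hlt hres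
  exact ⟨v, hv, (eqv v).lt_one_iff_lt_one.1 hlt, rind_iff.1 hres⟩

variable {K : Type} [Field K] [Algebra k K] [Algebra K F] [IsScalarTower k K F]
  {w : Valuation K ℤᵐ⁰} {e : ℕ} {z : ι → K} {g : κ → F}

/-- the residues of `g` are algebraically independent over the residue field of `w` -/
def Gauss {G : Type} [LinearOrderedCommGroupWithZero G] (v : Valuation F G)
    (w : Valuation K ℤᵐ⁰) (g : κ → F) : Prop :=
  ∀ p : MvPolynomial κ K, (∀ m, w (coeff m p) ≤ 1) → (∃ m, w (coeff m p) = 1) →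
    v (aeval g p) = 1

omit [Fintype κ] [DecidableEq κ] in
theorem Gauss.rind {G : Type} [LinearOrderedCommGroupWithZero G] {v : Valuation F G}
    (h : Gauss v w g) {α : Type} {u : α → K} (hu : RIndC k w u) :
    RIndC k v (Sum.elim (algebraMap K F ∘ u) g) := by
  refine RIndC.swap fun p hp => ?_
  let φ := (aeval u : MvPolynomial α k →ₐ[k] K).toRingHom
  have h0 : sumAlgEquiv k κ α p ≠ 0 := (map_ne_zero_iff _ (sumAlgEquiv k κ α).injective).2 hp
  obtain ⟨m, hm⟩ := ne_zero_iff.1 h0
  have h1 := h (map φ (sumAlgEquiv k κ α p)) (fun m => by rw [coeff_map]; exact hu.aeval_le _)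
    ⟨m, by rw [coeff_map]; exact hu _ hm⟩
  rw [← eval₂_sumAlgEquiv, ← h1, aeval_def, eval₂_map]
  congr 2
  refine RingHom.ext fun q => ?_
  exact aeval_algebraMap_apply F u q

omit [Fintype κ] [DecidableEq κ] [Fintype ι] [DecidableEq ι] in
theorem Gauss.res {G : Type} [LinearOrderedCommGroupWithZero G] {v : Valuation F G}
    (h : Gauss v w g) {c : ι → K} {i0 : ι} (hc : Adp k w.valuationSubring c i0) :
    RIndC k v fun j : {j : ι ⊕ κ // j ≠ Sum.inl i0} => Sum.elim (algebraMap K F ∘ c) g j := by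
  have h2 := (h.rind (rind_iff.1 hc.res)).comp _ (neInl_inj κ i0)
  refine (congrArg (RIndC k v) ?_).mp h2
  ext ⟨a | a, ha⟩ <;> rfl

/-- Gauss extension of a prime divisor -/
theorem exists_vert [Algebra.EssFiniteType k F] (hw : IsPrime k w) (hz : IsTranscendenceBasis k z)
    (hg : IsTranscendenceBasis K g) :
    ∃ (v : Valuation F ℤᵐ⁰) (e : ℕ), IsPrime k v ∧ Over v w e ∧ Gauss v w g := by
  let P := w.valuationSubring
  let φ : MvPolynomial κ P →+* F :=
    (aeval g : MvPolynomial κ K →ₐ[K] F).toRingHom.comp (map P.subtype)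
  obtain ⟨O, h1, h2⟩ := val_dom φ (map (IsLocalRing.residue P))
    (fun a b h => map_injective _ Subtype.val_injective (hg.1 h))
  have hC : ∀ a : P, φ (C a) = algebraMap K F a := fun a => by simp [φ]
  have hlt : ∀ a : K, w a < 1 → O.valuation (algebraMap K F a) < 1 := fun a ha => by
    rw [← hC ⟨a, ha.le⟩, h2, map_C, C_eq_zero, IsLocalRing.residue_eq_zero_iff,
      ValuationSubring.valuation_lt_one_iff]
    exact (eqv w).lt_one_iff_lt_one.2 ha
  have hle : ∀ a : K, algebraMap K F a ∈ O ↔ w a ≤ 1 := fun a => by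
    refine ⟨fun h => not_lt.1 fun ha => ?_, fun h => hC ⟨a, h⟩ ▸ h1 _⟩
    have a0 : a ≠ 0 := by rintro rfl; simp at ha
    have h3 := hlt a⁻¹ (by rw [map_inv₀]; exact inv_lt_one_of_one_lt₀ ha)
    rw [map_inv₀, map_inv₀, inv_lt_one₀ ((Valuation.pos_iff _).2 ((map_ne_zero _).2 a0))] at h3
    exact h3.not_ge ((O.valuation_le_one_iff _).2 h)
  have hG : Gauss O.valuation w g := fun p hp ⟨m, hm⟩ => by
    obtain ⟨q, rfl⟩ : p ∈ Set.range (MvPolynomial.map P.subtype) := mem_range_map_iff_coeffs_subset.2 (by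
      intro a ha
      obtain ⟨m, -, rfl⟩ := mem_coeffs_iff.1 ha
      exact ⟨⟨_, hp m⟩, rfl⟩)
    refine le_antisymm ((O.valuation_le_one_iff _).2 (h1 q)) (not_lt.1 fun h => ?_)
    have h3 := congrArg (coeff m) ((h2 q).1 h)
    rw [coeff_map, coeff_zero, IsLocalRing.residue_eq_zero_iff,
      ValuationSubring.valuation_lt_one_iff, (eqv w).lt_one_iff_lt_one] at h3
    rw [coeff_map] at hm
    exact h3.ne hm
  obtain ⟨c, i0, hc⟩ := hw.div.exists_adp (trdeg_card hz)
  obtain ⟨v, hv, rfl⟩ := exists_prime_of (basis_sum hc.basis hg) O (i0 := Sum.inl i0)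
    (hlt _ ((eqv w).lt_one_iff_lt_one.1 hc.lt)) (hG.res hc)
  obtain ⟨e, he⟩ := over_of (v := v) hw.1 hle
  exact ⟨v, e, hv, he, fun p h3 h4 => (eqv v).eq_one_iff_eq_one.1 (hG p h3 h4)⟩

variable [CharZero k]

theorem vert_eq (hv : IsPrime k v) (hw : IsPrime k w) (h : Over v w e)
    (hz : IsTranscendenceBasis k z) (hg : IsTranscendenceBasis K g) (hG : Gauss v w g) :
    1 + ordForm k (Sum.elim (algebraMap K F ∘ z) g) v = e * (1 + ordForm k z w) := by
  obtain ⟨c, i0, hc⟩ := hw.div.exists_adp (trdeg_card hz)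
  have h2 : ord v (algebraMap K F (c i0)) = e := by rw [h.ord, adp_unif hw.1 hc, mul_one]
  have h1 := log_eq hv.1 (basis_sum hc.basis hg) (i0 := Sum.inl i0)
    ((ord_pos ((map_ne_zero _).2 (hc.ne_zero i0))).1 (by
      refine lt_of_lt_of_eq ?_ h2.symm
      exact_mod_cast h.1)) (hG.res hc)
  simp only [Sum.elim_inl, Function.comp_apply, h2] at h1
  rw [vert_change hv hw h hz hg hc]
  linarith

omit [Algebra k F] [Algebra k K] [IsScalarTower k K F] [CharZero k] [Field k] in
theorem basis_empty [Algebra.IsAlgebraic K F] :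
    IsTranscendenceBasis K (Empty.elim : Empty → F) :=
  algebraicIndependent_empty_type.isTranscendenceBasis_of_lift_trdeg_le_of_finite
    (by simp [trdeg_eq_zero])

/-- ramification formula -/
theorem ram_eq [Algebra.IsAlgebraic K F] (hv : IsPrime k v) (hw : IsPrime k w) (h : Over v w e)
    (hz : IsTranscendenceBasis k z) :
    1 + ordForm k (algebraMap K F ∘ z) v = e * (1 + ordForm k z w) := by
  rw [← vert_eq hv hw h hz basis_empty fun p _ ⟨m, hm⟩ => ?_,
    ← ordForm_reindex hv hz.algebraMap_comp (Equiv.sumEmpty ι Empty)]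
  · congr 2
    ext (a | a)
    · rfl
    · exact a.elim
  · rw [eq_C_of_isEmpty p, aeval_C, h.2, ← Subsingleton.elim m 0, hm, one_pow]

omit [CharZero k] [DecidableEq ι] in
/-- restriction along an algebraic extension -/
theorem IsPrime.restrict_alg [Algebra.IsAlgebraic K F] (hv : IsPrime k v)
    (hz : IsTranscendenceBasis k z) :
    ∃ (w : Valuation K ℤᵐ⁰) (e : ℕ), IsPrime k w ∧ Over v w e := by
  refine hv.restrict hz basis_empty fun h => ?_
  obtain ⟨t, ht⟩ := hv.1 (exp 1)
  have h1 : IsIntegral K t := Algebra.IsIntegral.isIntegral t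
  let _ : Algebra K v.valuationSubring :=
    ((algebraMap K F).codRestrict v.valuationSubring h).toAlgebra
  have : IsScalarTower K v.valuationSubring F := .of_algebraMap_eq fun _ => rfl
  have h2 : IsIntegral v.valuationSubring t := h1.tower_top
  obtain ⟨a, rfl⟩ := IsIntegrallyClosed.isIntegral_iff.1 h2
  have h3 : v a ≤ 1 := a.2
  rw [show v a = exp 1 from ht, ← exp_zero, exp_le_exp] at h3
  omega

/-- a function without horizontal zeros and poles is a constant -/
theorem alg_of_ord [Algebra.EssFiniteType k F] {x : ι → F} (hx : IsTranscendenceBasis k x) {c : F}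
    (h : ∀ v : Valuation F ℤᵐ⁰, IsPrime k v → ord v c = 0) : IsAlgebraic k c := by
  have : CharZero F := charZero_of_injective_algebraMap (algebraMap k F).injective
  obtain ⟨D, hD⟩ := exists_dual hx
  have h0 : ∀ i, D i c = 0 := fun i => by
    by_contra hn
    have hb : IsTranscendenceBasis k (Function.update x i c) :=
      basis_of_jac hx (D := D) (by rw [jac_upd hx hD, jac_self hD, mul_one]; exact hn)
    obtain ⟨v, hv, h1, -⟩ := exists_coord hb i
    rw [Function.update_self, ← ord_pos (by rintro rfl; simp at hn), h v hv] at h1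
    exact h1.false
  have h1 := alg_of_der_zero (k0 := kR k F) D (fun j => der_kR _)
    (by rw [jac_self hD]; exact one_ne_zero) (alg_of_basis hx c) h0
  exact h1.of_ringHom_of_comp_eq (algebraMap k F).rangeRestrictField (RingHom.id F)
    (algebraMap k F).rangeRestrictField_bijective.2 Function.injective_id
    (RingHom.ext fun _ => rfl)

end Pool.Agent.Lib.MP_daea01_ag
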