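import Pool.Agent.Lib.MP_daea01_ag.Lat

/-! Logarithmic forms attached to `n + 1` linear forms. -/

namespace Pool.Agent.Lib.MP_daea01_ag

open WithZero Finset Matrix Pool.Agent.Lib.MP_5c318e_ag

variable {E F : Type} [Field E] [Field F] [Algebra E F] {n : ℕ} {y : Fin n → F}
  {N N' : Matrix (Fin (n + 1)) (Fin (n + 1)) E} {v : Valuation F ℤᵐ⁰}

/-- the affine linear form with coefficients `c` -/
def form (y : Fin n → F) (c : Fin (n + 1) → E) : F :=
  ∑ b, algebraMap E F (c b) * Fin.cons (α := fun _ => F) 1 y b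

/-- affine coordinates attached to `n + 1` linear forms -/
def crd (y : Fin n → F) (N : Matrix (Fin (n + 1)) (Fin (n + 1)) E) (a : Fin n) : F :=
  form y (N a.succ) / form y (N 0)

/-- coefficient of the logarithmic form attached to `n + 1` linear forms -/
def lg (y : Fin n → F) (N : Matrix (Fin (n + 1)) (Fin (n + 1)) E) : F :=
  algebraMap E F N.det / ∏ a, form y (N a)

theorem form_eq (c : Fin (n + 1) → E) :
    form y c = algebraMap E F (c 0) + ∑ j, algebraMap E F (c j.succ) * y j := by
  simp [form, Fin.sum_univ_succ]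

theorem form_smul (u : E) (c : Fin (n + 1) → E) :
    form y (u • c) = algebraMap E F u * form y c := by
  simp [form, mul_sum, mul_assoc]

theorem form_vecMul (c : Fin (n + 1) → E) :
    form y (vecMul c N) = ∑ b, algebraMap E F (c b) * form y (N b) := by
  simp only [form, vecMul, dotProduct, map_sum, map_mul, sum_mul, mul_sum, mul_assoc]
  exact sum_comm

theorem form_le {c : Fin (n + 1) → E} {g : ℤᵐ⁰}
    (h : ∀ b, v (algebraMap E F (c b) * form y (N b)) ≤ g) : v (form y (vecMul c N)) ≤ g := by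
  rw [form_vecMul]
  exact v.map_sum_le fun b _ => h b

theorem lg_scale {u : Fin (n + 1) → E} (hu : ∀ a, u a ≠ 0) (h : ∀ a, N' a = u a • N a) :
    lg y N' = lg y N := by
  have h1 : N' = diagonal u * N := by
    ext a b
    rw [diagonal_mul, h, Pi.smul_apply, smul_eq_mul]
  rw [lg, lg, prod_congr rfl fun a _ => (congrArg (form y) (h a)).trans (form_smul _ _),
    prod_mul_distrib, h1, det_mul, det_diagonal, map_mul, map_prod, mul_div_mul_left]
  exact prod_ne_zero_iff.2 fun a _ => (map_ne_zero _).2 (hu a)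

theorem jac_scale {R ι : Type} [CommRing R] [Algebra R F] [Fintype ι] [DecidableEq ι]
    (D : ι → Derivation R F F) (u : ι → F) (o : ι) (e : ι → ℕ) (he : e o = 0) :
    Jac D (fun j => u o ^ e j * u j) = u o ^ (∑ j, e j) * Jac D u := by
  rw [Jac, Jac, ← prod_pow_eq_pow_sum, ← Matrix.det_mul_column]
  refine Matrix.det_eq_of_forall_row_eq_smul_add_const
    (fun j => e j * u o ^ (e j - 1) * u j) o (by simp [he]) fun j i => ?_
  simp only [Matrix.of_apply, Derivation.leibniz, Derivation.leibniz_pow, he, smul_eq_mul,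
    nsmul_eq_mul]
  ring

variable {D : Fin n → Derivation E F F}

theorem der_form (hD : Dual y D) (j : Fin n) (c : Fin (n + 1) → E) :
    D j (form y c) = algebraMap E F (c j.succ) := by
  rw [form_eq, map_add, D j |>.map_algebraMap, zero_add, map_sum, sum_eq_single j]
  · simp [hD j j]
  · intro i _ hi
    simp [hD j i, hi]
  · simp

theorem jac_crd (hD : Dual y D) (h0 : form y (N 0) ≠ 0) :
    Jac D (crd y N) * form y (N 0) ^ (n + 1) = algebraMap E F N.det := by
  let U : Matrix (Fin (n + 1)) (Fin (n + 1)) F := of fun b c =>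
    Fin.cases (Fin.cons (α := fun _ => F) 1 y b) (fun j => if b = j.succ then 1 else 0) c
  let B : Matrix (Fin (n + 1)) (Fin (n + 1)) F := of fun a c =>
    Fin.cases (Fin.cases (form y (N 0)) (fun j => algebraMap E F (N 0 j.succ)) c)
      (fun a => Fin.cases 0 (fun j => form y (N 0) * D j (crd y N a)) c) a
  have hU : U.det = 1 := by
    have : U.submatrix Fin.succ Fin.succ = 1 := by
      ext i j
      simp [U, one_apply]
    rw [det_succ_row_zero, Fin.sum_univ_succ]
    simp [U, (Fin.succ_ne_zero _).symm, this]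
  have h1 : (N.map (algebraMap E F) * U).det = B.det := by
    refine det_eq_of_forall_row_eq_smul_add_const (Fin.cons 0 (crd y N)) 0 rfl fun a c => ?_
    refine Fin.cases ?_ (fun j => ?_) c <;> refine Fin.cases ?_ (fun a => ?_) a
    · simp [mul_apply, U, B, form]
    · simp only [mul_apply, U, B, map_apply, of_apply, Fin.cases_zero, Fin.cases_succ,
        Fin.cons_succ, crd, zero_add, div_mul_cancel₀ _ h0]
      rfl
    · simp [mul_apply, U, B]
    · have h2 := der_form hD j (N a.succ)
      rw [← mul_div_cancel₀ (form y (N a.succ)) h0, Derivation.leibniz, der_form hD] at h2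
      simp only [mul_apply, U, B, map_apply, of_apply, Fin.cases_zero, Fin.cases_succ,
        Fin.cons_succ, mul_ite, mul_one, mul_zero, sum_ite_eq', mem_univ, if_true]
      exact h2.symm
  have h2 : B.submatrix Fin.succ Fin.succ = form y (N 0) • of fun a j => D j (crd y N a) := by
    ext a j
    simp [B]
  rw [det_mul, hU, mul_one, ← RingHom.mapMatrix_apply, ← RingHom.map_det, det_succ_column_zero B,
    Fin.sum_univ_succ] at h1
  rw [h1, Fin.succAbove_zero, h2, det_smul, Jac]
  simp [B]
  ring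

variable [CharZero E]

theorem form_ne (hy : IsTranscendenceBasis E y) {c : Fin (n + 1) → E} (hc : c ≠ 0) :
    form y c ≠ 0 := fun h => hc (by
  obtain ⟨D, hD⟩ := exists_dual hy
  have h1 : ∀ j : Fin n, c j.succ = 0 := fun j => by
    have := der_form hD j c
    rw [h, map_zero] at this
    exact (map_eq_zero _).1 this.symm
  ext b
  refine Fin.cases ?_ h1 b
  rw [form_eq] at h
  simpa [h1] using h)

theorem row_ne (hy : IsTranscendenceBasis E y) (h : N.det ≠ 0) (a : Fin (n + 1)) :
    form y (N a) ≠ 0 :=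
  form_ne hy fun e => h (det_eq_zero_of_row_eq_zero a (congrFun e))

omit [CharZero E] in
theorem jac_crd' (hD : Dual y D) (h0 : form y (N 0) ≠ 0) :
    Jac D (crd y N) = algebraMap E F N.det / form y (N 0) ^ (n + 1) :=
  eq_div_of_mul_eq (pow_ne_zero _ h0) (jac_crd hD h0)

theorem crd_basis (hy : IsTranscendenceBasis E y) (h : N.det ≠ 0) :
    IsTranscendenceBasis E (crd y N) := by
  obtain ⟨D, hD⟩ := exists_dual hy
  refine basis_of_jac hy (D := D) ?_
  rw [jac_crd' hD (row_ne hy h 0)]
  exact div_ne_zero ((map_ne_zero _).2 h) (pow_ne_zero _ (row_ne hy h 0))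

omit [CharZero E] in
theorem jac_lg (hD : Dual y D) (h0 : ∀ a, form y (N a) ≠ 0) :
    Jac D (crd y N) / ∏ a, crd y N a = lg y N := by
  have h1 : ∏ a : Fin n, form y (N a.succ) ≠ 0 := prod_ne_zero_iff.2 fun a _ => h0 _
  have h2 := h0 0
  rw [jac_crd' hD h2, lg, Fin.prod_univ_succ]
  simp only [crd, prod_div_distrib, prod_const, card_univ, Fintype.card_fin]
  field_simp
  ring

theorem lg_ne (hy : IsTranscendenceBasis E y) (h : N.det ≠ 0) : lg y N ≠ 0 :=
  div_ne_zero ((map_ne_zero _).2 h) (prod_ne_zero_iff.2 fun a _ => row_ne hy h a)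

variable {m r : ℕ} {a : Fin m → ℕ} {C : Fin m → Fin (n + 1) → E}

/-- a log canonical arrangement splits into bases -/
theorem semistable [Algebra.EssFiniteType E F] (hy : IsTranscendenceBasis E y)
    (ha : ∑ i, a i = r * (n + 1)) (h0 : ∀ i, form y (C i) ≠ 0)
    (lc : ∀ v : Valuation F ℤᵐ⁰, IsPrime E v →
      ∑ i, a i * ord v (form y (C i)) ≤ r * (1 + ordForm E y v)) :
    ∃ γ ∈ Dec a r (n + 1), br C γ ≠ 0 := by
  rcases rado C ha with ⟨γ, hγ, h⟩ | ⟨Q, S, I, q1, q0, q2, q3⟩
  · exact ⟨γ, hγ, prod_ne_zero_iff.2 fun j _ => h j⟩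
  exfalso
  obtain ⟨s, hs⟩ : S.Nonempty := by
    obtain ⟨i, hi⟩ : I.Nonempty := nonempty_of_sum_ne_zero (Nat.ne_zero_of_lt q2)
    obtain ⟨u, h1, h2⟩ := q3 i hi
    by_contra hS
    rw [not_nonempty_iff_eq_empty] at hS
    have : u = 0 := funext fun b => h1 b (by simp [hS])
    exact h0 i (by rw [h2, this, zero_vecMul]; simp [form])
  obtain ⟨o, rfl⟩ := Fin.exists_succ_eq.2 (ne_of_mem_of_not_mem hs q0)
  have hf := crd_basis hy q1
  have m0 := row_ne hy q1 0
  let e : Fin n → ℕ := fun j => if j.succ ∈ S.erase o.succ then 1 else 0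
  have he : e o = 0 := by simp [e]
  let u : Fin n → F := fun j => crd y Q j / crd y Q o ^ e j
  have hu : crd y Q = fun j => u o ^ e j * u j := by
    ext j
    simp only [u, he, pow_zero, div_one]
    rw [mul_div_cancel₀ _ (pow_ne_zero _ (hf.1.ne_zero o))]
  have hsum : ∑ j, e j + 1 = #S := by
    rw [← card_erase_add_one hs, card_eq_sum_ones (S.erase _), ← univ_inter (S.erase _),
      ← sum_ite_mem, Fin.sum_univ_succ, if_neg fun h => q0 (mem_of_mem_erase h), zero_add]
  obtain ⟨D, hD⟩ := exists_dual hy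
  have hub : IsTranscendenceBasis E u := basis_of_jac hy (D := D) fun h =>
    hD.jac_ne hy hf (by rw [hu, jac_scale D u o e he, h, mul_zero])
  obtain ⟨v, hv, h1, h2⟩ := exists_coord hub o
  obtain ⟨D', hD'⟩ := exists_dual hub
  have h3 := log_eq hv.1 hub h1 h2
  have h4 := ordForm_change hv hub hD' hf
  rw [hu, jac_scale D' u o e he, jac_self hD', mul_one, ord_pow, ← hu,
    ordForm_change hv hy hD hf, jac_crd' hD m0, ord_div ((map_ne_zero _).2 q1) (pow_ne_zero _ m0),
    ord_unit (hv.const q1), ord_pow] at h4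
  have u0 := hub.1.ne_zero o
  have h5 := (ord_pos u0).2 h1
  have hc : ∀ c : E, v (algebraMap E F c) ≤ 1 := h2.const_le
  have h6 : ∀ b, v (form y (Q b)) ≤ v (form y (Q 0) * if b ∈ S then u o else 1) := fun b => by
    refine Fin.cases (by simp [q0]) (fun j => ?_) b
    rw [← mul_div_cancel₀ (form y (Q j.succ)) m0, map_mul, map_mul]
    refine mul_le_mul_right ?_ _
    rw [show form y (Q j.succ) / form y (Q 0) = u o ^ e j * u j from congrFun hu j]
    by_cases hj : j = o
    · subst hj
      simp [he, hs]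
    · rw [map_mul, h2.val_eq ⟨j, hj⟩, mul_one]
      by_cases hS : j.succ ∈ S <;> simp [e, hS, hj]
  have h7 : ∀ i, ord v (form y (Q 0)) + (if i ∈ I then ord v (u o) else 0) ≤
      ord v (form y (C i)) := fun i => by
    split_ifs with hi
    · obtain ⟨l, l1, l2⟩ := q3 i hi
      rw [← ord_mul m0 u0, ord_le_iff (h0 i) (mul_ne_zero m0 u0), l2]
      refine form_le fun b => ?_
      by_cases hb : b ∈ S
      · rw [map_mul]
        exact (mul_le_of_le_one_left' (hc _)).trans (by simpa only [if_pos hb] using h6 b)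
      · simp [l1 b hb]
    · rw [add_zero, ord_le_iff (h0 i) m0, ← vecMul_one (C i), ← nonsing_inv_mul Q q1.isUnit,
        ← vecMul_vecMul]
      refine form_le fun b => ?_
      rw [map_mul]
      refine (mul_le_of_le_one_left' (hc _)).trans ((h6 b).trans ?_)
      rw [map_mul]
      refine mul_le_of_le_one_right' ?_
      split_ifs
      · exact h1.le
      · simp
  have h8 := (sum_le_sum fun i (_ : i ∈ univ) =>
    mul_le_mul_of_nonneg_left (h7 i) (Int.natCast_nonneg (a i))).trans (lc v hv)
  simp only [mul_add, sum_add_distrib, mul_ite, mul_zero, sum_ite_mem, univ_inter,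
    ← sum_mul] at h8
  have e1 : ∑ i, (a i : ℤ) = r * (n + 1) := by exact_mod_cast ha
  have e2 : ((∑ j, e j : ℕ) : ℤ) + 1 = #S := by exact_mod_cast hsum
  have e3 : (r : ℤ) * #S < ∑ i ∈ I, (a i : ℤ) := by exact_mod_cast q2
  have e4 := mul_lt_mul_of_pos_right e3 h5
  have e5 : ordForm E y v = #S * ord v (u o) - 1 + (n + 1) * ord v (form y (Q 0)) := by
    rw [← e2]
    push_cast at h4 ⊢
    linarith
  rw [e1, e5] at h8
  linarith

end Pool.Agent.Lib.MP_daea01_ag
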