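import Pool.Agent.Lib.MP_daea01_ag.Comb
import Pool.Agent.Lib.MP_daea01_ag.Ext

/-! Semistable reduction of weighted vectors, generic norms and real linear equivalence. -/

namespace Pool.Agent.Lib.MP_daea01_ag

open WithZero Finset Matrix

variable {E : Type} [Field E] {w : Valuation E ℤᵐ⁰} {m r n : ℕ} {a : Fin m → ℕ}

/-- the bracket of one block -/
def blk {R : Type} [CommRing R] (C : Fin m → Fin (n + 1) → R) (B : Fin (n + 1) → Fin m) : R :=
  (Matrix.of fun s => C (B s)).det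

/-- the product of the brackets of all blocks -/
def br {R : Type} [CommRing R] (C : Fin m → Fin (n + 1) → R)
    (γ : Fin r × Fin (n + 1) → Fin m) : R :=
  ∏ j, blk C fun s => γ (j, s)

theorem blk_map {R S : Type} [CommRing R] [CommRing S] (φ : R →+* S)
    (C : Fin m → Fin (n + 1) → R) (B : Fin (n + 1) → Fin m) :
    blk (fun i b => φ (C i b)) B = φ (blk C B) := by
  rw [blk, blk, RingHom.map_det]
  rfl

theorem blk_change {C l : Fin m → Fin (n + 1) → E} {u : Fin m → E}
    {N : Matrix (Fin (n + 1)) (Fin (n + 1)) E} (h : ∀ i, C i = u i • vecMul (l i) N)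
    (B : Fin (n + 1) → Fin m) : blk C B = (∏ s, u (B s)) * blk l B * N.det := by
  rw [blk, blk, ← det_diagonal, ← det_mul, ← det_mul]
  congr 1
  ext s b
  rw [Matrix.mul_assoc, diagonal_mul, of_apply, h]
  rfl

theorem res_ne_zero {x : w.valuationSubring} :
    IsLocalRing.residue w.valuationSubring x ≠ 0 ↔ w x = 1 := by
  rw [Ne, IsLocalRing.residue_eq_zero_iff, ValuationSubring.valuation_lt_one_iff,
    (eqv w).lt_one_iff_lt_one, not_lt]
  exact ⟨fun h => le_antisymm x.2 h, fun h => h.ge⟩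

/-- a lattice for which the reduction of the vectors splits into bases -/
theorem lattice (hs : Function.Surjective w) (C : Fin m → Fin (n + 1) → E)
    (ha : ∑ i, a i = r * (n + 1)) {γ0 : Fin r × Fin (n + 1) → Fin m} (h0 : γ0 ∈ Dec a r (n + 1))
    (hb : br C γ0 ≠ 0) :
    ∃ (N : Matrix (Fin (n + 1)) (Fin (n + 1)) E) (u : Fin m → E)
      (l : Fin m → Fin (n + 1) → w.valuationSubring), N.det ≠ 0 ∧ (∀ i, u i ≠ 0) ∧
      (∀ i, C i = u i • vecMul (fun b => (l i b : E)) N) ∧
      ∃ γ ∈ Dec a r (n + 1), ∀ j, w (blk l fun s => γ (j, s) : w.valuationSubring) = 1 := by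
  let P := w.valuationSubring
  let T : ℤ → Prop := fun t => ∃ (N : Matrix (Fin (n + 1)) (Fin (n + 1)) E) (u : Fin m → E)
    (l : Fin m → Fin (n + 1) → P), N.det ≠ 0 ∧ (∀ i, u i ≠ 0) ∧
      (∀ i, C i = u i • vecMul (fun b => (l i b : E)) N) ∧
      t = ∑ i, a i * ord w (u i) + r * ord w N.det
  have hne : ∃ t, T t := by
    have h1 : ∀ i, ∃ u : E, u ≠ 0 ∧ ∀ b, w (C i b / u) ≤ 1 := fun i => by
      obtain ⟨o, -, ho⟩ := exists_max_image univ (fun o : Option (Fin (n + 1)) =>
        w (o.elim 1 (C i))) univ_nonempty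
      have h2 : 0 < w (o.elim 1 (C i)) := lt_of_lt_of_le (by simp) (ho none (mem_univ _))
      refine ⟨_, (Valuation.pos_iff _).1 h2, fun b => ?_⟩
      rw [map_div₀, div_le_one₀ h2]
      exact ho (some b) (mem_univ _)
    choose u hu hu' using h1
    refine ⟨_, 1, u, fun i b => ⟨_, hu' i b⟩, by simp, hu, fun i => ?_, rfl⟩
    ext b
    simp [mul_div_cancel₀ _ (hu i)]
  have hbd : ∀ t, T t → t ≤ ord w (br C γ0) := by
    rintro t ⟨N, u, l, h1, h2, h3, rfl⟩
    have h4 : br C γ0 = (∏ i, u i ^ a i) * (br l γ0 : P) * N.det ^ r := by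
      rw [br, prod_congr rfl fun j _ => blk_change h3 _, prod_mul_distrib, prod_mul_distrib,
        Dec.prod h0, prod_const, card_univ, Fintype.card_fin, br]
      congr 2
      rw [show ((∏ j, blk l fun s => γ0 (j, s) : P) : E) = _ from map_prod P.subtype _ _]
      exact prod_congr rfl fun j _ => blk_map P.subtype l _
    have h5 : ((br l γ0 : P) : E) ≠ 0 := fun h => hb (by rw [h4, h]; simp)
    have h6 : ∀ i ∈ univ, u i ^ a i ≠ 0 := fun i _ => pow_ne_zero _ (h2 i)
    have h7 := (ord_nonneg (v := w) h5).2 (br l γ0).2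
    rw [h4, ord_mul (mul_ne_zero (prod_ne_zero_iff.2 h6) h5) (pow_ne_zero _ h1),
      ord_mul (prod_ne_zero_iff.2 h6) h5, ord_prod _ h6, ord_pow]
    simp only [ord_pow]
    omega
  obtain ⟨t, ⟨N, u, l, h1, h2, h3, rfl⟩, hmax⟩ := Int.exists_greatest_of_bdd ⟨_, hbd⟩ hne
  refine ⟨N, u, l, h1, h2, h3, ?_⟩
  rcases rado (fun i b => IsLocalRing.residue P (l i b)) ha with
    ⟨γ, hγ, h⟩ | ⟨Q0, S, I, q1, -, q2, q3⟩
  · exact ⟨γ, hγ, fun j => res_ne_zero.1 (blk_map (IsLocalRing.residue P) l _ ▸ h j)⟩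
  exfalso
  obtain ⟨π, hπ⟩ := hs (exp (-1))
  have π0 := (unif_lt hπ).1
  choose Q hQ using fun i j => IsLocalRing.residue_surjective (R := P) (Q0 i j)
  let Q1 : Matrix (Fin (n + 1)) (Fin (n + 1)) P := Matrix.of Q
  have e1 : Q1.map (IsLocalRing.residue P) = Q0 := by ext i j; exact hQ i j
  have d1 : IsLocalRing.residue P Q1.det ≠ 0 := by
    rwa [RingHom.map_det, RingHom.mapMatrix_apply, e1]
  have d2 : IsUnit Q1.det := (IsLocalRing.residue_ne_zero_iff_isUnit _).1 d1
  let l' : Fin m → Fin (n + 1) → P := fun i => vecMul (l i) Q1⁻¹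
  have e2 : ∀ i, vecMul (l' i) Q1 = l i := fun i => by
    rw [vecMul_vecMul, nonsing_inv_mul _ d2, vecMul_one]
  have e3 : ∀ i ∈ I, ∀ b ∉ S, w (l' i b) ≤ exp (-1) := fun i hi b hb => by
    obtain ⟨u0, h4, h5⟩ := q3 i hi
    have h6 : vecMul (fun b => IsLocalRing.residue P (l' i b)) Q0 = vecMul u0 Q0 := by
      rw [← h5, ← e1, ← e2 i]
      ext j
      exact (RingHom.map_vecMul _ _ _ _).symm
    have h7 := congrFun (vecMul_injective_iff_isUnit.2
      ((isUnit_iff_isUnit_det _).2 q1.isUnit) h6) b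
    have h8 : ¬w (l' i b) = 1 := fun h => res_ne_zero.2 h (h7.trans (h4 b hb))
    by_cases h9 : (l' i b : E) = 0
    · simp [h9]
    · have := (ord_pos h9).2 (lt_of_le_of_ne (l' i b).2 h8)
      rw [val_eq h9, exp_le_exp]
      omega
  let δ : Fin (n + 1) → E := fun b => if b ∈ S then π⁻¹ else 1
  let ε : Fin m → E := fun i => if i ∈ I then π else 1
  have δ0 : ∀ b, δ b ≠ 0 := fun b => by simp only [δ]; split_ifs <;> simp [π0]
  have ε0 : ∀ b, ε b ≠ 0 := fun b => by simp only [ε]; split_ifs <;> simp [π0]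
  have e4 : ∀ i b, w (l' i b / (δ b * ε i)) ≤ 1 := fun i b => by
    have h4 : w (l' i b) ≤ 1 := (l' i b).2
    simp only [δ, ε]
    split_ifs with hb hi hi
    · rwa [inv_mul_cancel₀ π0, div_one]
    · rw [mul_one, div_inv_eq_mul, map_mul]
      exact mul_le_one' h4 (unif_lt hπ).2.le
    · rw [one_mul, map_div₀, div_le_one₀ ((Valuation.pos_iff _).2 π0), hπ]
      exact e3 i hi b hb
    · simpa using h4
  have d3 : (Q1.map P.subtype).det = (Q1.det : P) := (RingHom.map_det P.subtype Q1).symm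
  have d4 : w (Q1.det : P) = 1 := res_ne_zero.1 d1
  have d5 : ((Q1.det : P) : E) ≠ 0 := fun h => by simp [h] at d4
  have d6 : ∏ b, δ b ≠ 0 := prod_ne_zero_iff.2 fun b _ => δ0 b
  have d7 : (diagonal δ * (Q1.map P.subtype * N)).det = (∏ b, δ b) * ((Q1.det : P) * N.det) := by
    rw [det_mul, det_mul, det_diagonal, d3]
  have := hmax _ ⟨diagonal δ * (Q1.map P.subtype * N), fun i => u i * ε i,
    fun i b => ⟨_, e4 i b⟩, d7 ▸ mul_ne_zero d6 (mul_ne_zero d5 h1),
    fun i => mul_ne_zero (h2 i) (ε0 i), fun i => ?_, rfl⟩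
  · have o1 : ∀ b, ord w (δ b) = if b ∈ S then -1 else 0 := fun b => by
      simp only [δ]; split_ifs <;> simp [ord_inv, ord_of hπ, ord_one]
    have o2 : ∀ i, ord w (ε i) = if i ∈ I then 1 else 0 := fun b => by
      simp only [ε]; split_ifs <;> simp [ord_of hπ, ord_one]
    rw [d7, ord_mul d6 (mul_ne_zero d5 h1), ord_mul d5 h1, ord_unit d4,
      ord_prod _ fun b _ => δ0 b] at this
    simp only [ord_mul (h2 _) (ε0 _), o1, o2, mul_add, sum_add_distrib, mul_ite, mul_one, mul_zero,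
      sum_ite_mem, univ_inter, sum_const, smul_neg, nsmul_eq_mul] at this
    have q4 : (r : ℤ) * #S < ∑ i ∈ I, (a i : ℤ) := by exact_mod_cast q2
    linarith
  · have h4 : ε i • vecMul (fun b => (l' i b : E) / (δ b * ε i)) (diagonal δ) =
        fun b => (l' i b : E) := by
      ext b
      have := δ0 b
      have := ε0 i
      rw [Pi.smul_apply, vecMul_diagonal, smul_eq_mul]
      field_simp
    have h5 : vecMul (fun b => (l' i b : E)) (Q1.map P.subtype) = fun b => (l i b : E) := by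
      rw [← e2 i]
      ext j
      exact (RingHom.map_vecMul P.subtype _ _ _).symm
    show C i = (u i * ε i) • vecMul (fun b => (l' i b : E) / (δ b * ε i)) _
    rw [h3 i, mul_smul, ← vecMul_vecMul, ← vecMul_vecMul, ← h5, ← h4, smul_vecMul, smul_vecMul]

/-- some generic norm has the largest possible value -/
theorem grid (hw : ∀ t : ℕ, t ≠ 0 → w t = 1) {A Γ : Type} [Fintype A] [Fintype Γ] {M : ℕ}
    (idx : Γ → ℕ) (hi : Function.Injective idx) (hM : ∀ γ, idx γ ≤ M) (S : A → Γ → E) {s : E}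
    (s0 : s ≠ 0) (h1 : ∀ h γ, w (S h γ) ≤ w s) (h2 : ∀ h, ∃ γ, w (S h γ) = w s) :
    (∀ t : ℕ, w (∏ h, ∑ γ, (t : E) ^ idx γ * S h γ) ≤ w (s ^ Fintype.card A)) ∧
      ∃ t ≤ Fintype.card A * M,
        w (∏ h, ∑ γ, (t : E) ^ idx γ * S h γ) = w (s ^ Fintype.card A) := by
  classical
  let P := w.valuationSubring
  have hp : 0 < w s := (Valuation.pos_iff _).2 s0
  let T : A → Γ → P := fun h γ => ⟨S h γ / s, by
    rw [Valuation.mem_valuationSubring_iff, map_div₀, div_le_one₀ hp]; exact h1 h γ⟩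
  have e1 : ∀ t : ℕ, w (∏ h, ∑ γ, (t : E) ^ idx γ * S h γ) =
      w (∏ h, ∑ γ, (t : P) ^ idx γ * T h γ : P) * w (s ^ Fintype.card A) := fun t => by
    rw [← map_mul, ← card_univ, ← prod_const,
      show ((∏ h, ∑ γ, (t : P) ^ idx γ * T h γ : P) : E) = _ from map_prod P.subtype _ _,
      ← prod_mul_distrib]
    congr 1
    refine prod_congr rfl fun h _ => ?_
    rw [map_sum, sum_mul]
    refine sum_congr rfl fun γ _ => ?_
    rw [map_mul, map_pow, map_natCast, mul_assoc]
    exact congrArg _ (div_mul_cancel₀ _ s0).symm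
  refine ⟨fun t => e1 t ▸ mul_le_of_le_one_left' (∏ h, ∑ γ, (t : P) ^ idx γ * T h γ : P).2, ?_⟩
  have : CharZero (IsLocalRing.ResidueField P) := charZero_of_inj_zero fun t ht => by
    by_contra h0
    exact res_ne_zero.2 (show w ((t : P) : E) = 1 by simpa using hw t h0) (by rw [map_natCast, ht])
  let p : A → Polynomial (IsLocalRing.ResidueField P) := fun h =>
    ∑ γ, Polynomial.monomial (idx γ) (IsLocalRing.residue P (T h γ))
  have p0 : ∀ h ∈ univ, p h ≠ 0 := fun h _ e => by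
    obtain ⟨γ, hγ⟩ := h2 h
    have h3 := congrArg (Polynomial.coeff · (idx γ)) e
    simp only [p, Polynomial.finsetSum_coeff, Polynomial.coeff_monomial, hi.eq_iff, sum_ite_eq',
      mem_univ, if_true, Polynomial.coeff_zero] at h3
    exact res_ne_zero.2 (show w (S h γ / s) = 1 by rw [map_div₀, hγ, div_self hp.ne']) h3
  have pd : (∏ h, p h).natDegree ≤ Fintype.card A * M := by
    refine (Polynomial.natDegree_prod_le _ _).trans ?_
    rw [← card_univ, ← smul_eq_mul]
    exact sum_le_card_nsmul _ _ _ fun h _ => Polynomial.natDegree_sum_le_of_forall_le _ _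
      fun γ _ => (Polynomial.natDegree_monomial_le _).trans (hM γ)
  by_contra hn
  refine prod_ne_zero_iff.2 p0 (Polynomial.eq_zero_of_natDegree_lt_card_of_eval_eq_zero _
    (f := fun t : Fin (Fintype.card A * M + 1) => ((t : ℕ) : IsLocalRing.ResidueField P))
    (Nat.cast_injective.comp Fin.val_injective) (fun t => ?_) (by simpa using Nat.lt_succ_of_le pd))
  by_contra h3
  refine hn ⟨t, Nat.le_of_lt_succ t.2, ?_⟩
  rw [e1, res_ne_zero.1, one_mul]
  convert h3 using 1
  simp [p, P, Polynomial.eval_prod, Polynomial.eval_finsetSum, mul_comm]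

theorem prin_eq (ρ : Eˣ →₀ ℝ) :
    prin ρ w = Finsupp.linearCombination ℝ (fun φ : Eˣ => (ord w (φ : E) : ℝ)) ρ := rfl

/-- a real combination of principal divisors splits along a rational basis of its coefficients -/
theorem real_split (ρ : Eˣ →₀ ℝ) : ∃ (N : ℕ) (c : Fin N → E) (μ : Fin N → ℝ), (∀ t, c t ≠ 0) ∧
    ∀ w : Valuation E ℤᵐ⁰, prin ρ w = ∑ t, μ t * ord w (c t) ∧
      (prin ρ w = 0 → ∀ t, ord w (c t) = 0) := by
  let W := Submodule.span ℚ (Set.range fun φ : ρ.support => ρ φ)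
  have : FiniteDimensional ℚ W := FiniteDimensional.span_of_finite _ (Set.finite_range _)
  let b := Module.finBasis ℚ W
  let q : ρ.support × Fin (Module.finrank ℚ W) → ℚ := fun p =>
    b.repr ⟨ρ p.1, Submodule.subset_span ⟨p.1, rfl⟩⟩ p.2
  obtain ⟨⟨D, hD⟩, h⟩ := IsLocalization.exist_integer_multiples_of_finite (nonZeroDivisors ℤ) q
  choose z hz using h
  have D0 : (D : ℝ) ≠ 0 := by exact_mod_cast nonZeroDivisors.ne_zero hD
  have hq : ∀ φ : ρ.support, ρ φ = ∑ t, (z (φ, t) : ℝ) * ((b t : ℝ) / D) := fun φ => by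
    have h1 := congrArg Subtype.val (b.sum_repr ⟨ρ φ, Submodule.subset_span ⟨φ, rfl⟩⟩)
    rw [Submodule.coe_sum] at h1
    refine h1.symm.trans (sum_congr rfl fun t _ => ?_)
    have h2 : (z (φ, t) : ℝ) = D * q (φ, t) := by
      have : (z (φ, t) : ℚ) = D * q (φ, t) := by simpa using hz (φ, t)
      exact_mod_cast this
    rw [h2, Submodule.coe_smul, Rat.smul_def]
    field_simp
    exact mul_comm _ _
  have c0 : ∀ t, ∀ φ ∈ (univ : Finset ρ.support), ((φ : Eˣ) : E) ^ z (φ, t) ≠ 0 :=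
    fun t φ _ => zpow_ne_zero _ (Units.ne_zero _)
  refine ⟨_, fun t => ∏ φ : ρ.support, ((φ : Eˣ) : E) ^ z (φ, t), fun t => (b t : ℝ) / D,
    fun t => prod_ne_zero_iff.2 (c0 t), fun w => ?_⟩
  have h1 : prin ρ w =
      ∑ t, (b t : ℝ) / D * ord w (∏ φ : ρ.support, ((φ : Eˣ) : E) ^ z (φ, t)) := by
    rw [prin, Finsupp.sum, ← sum_coe_sort]
    simp only [ord_prod _ (c0 _), ord_zpow, hq, sum_mul, Int.cast_sum, Int.cast_mul, mul_sum]
    rw [sum_comm]
    exact sum_congr rfl fun t _ => sum_congr rfl fun φ _ => by ring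
  refine ⟨h1, fun h0 t => ?_⟩
  have h2 := Fintype.linearIndependent_iff.1 (b.linearIndependent.map' W.subtype W.ker_subtype)
    (fun t => (ord w (∏ φ : ρ.support, ((φ : Eˣ) : E) ^ z (φ, t)) : ℚ)) (by
      refine (mul_eq_zero_iff_left (inv_ne_zero D0)).1 ?_
      rw [← h0, h1, mul_sum]
      refine sum_congr rfl fun t _ => ?_
      rw [Rat.smul_def]
      simp only [Function.comp_apply, Submodule.coe_subtype, Rat.cast_intCast]
      ring) t
  exact_mod_cast h2

end Pool.Agent.Lib.MP_daea01_ag
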