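import Pool.Agent.Lib.MP_daea01_ag.Core

/-! The moduli part of a fibration with arrangement fibres. -/

namespace Pool.Agent.Lib.MP_daea01_ag

open WithZero Finset Pool.Agent.Lib.MP_5c318e_ag

variable {k K L E F : Type} [Field k] [Field K] [Field L] [Field E] [Field F] [CharZero k]
  [Algebra k K] [Algebra k L] [Algebra k E] [Algebra k F] [Algebra K L] [Algebra K E]
  [Algebra K F] [Algebra L F] [Algebra E F] [IsScalarTower k K L] [IsScalarTower k K E]
  [IsScalarTower k K F] [IsScalarTower k L F] [IsScalarTower k E F] [IsScalarTower K L F]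
  [IsScalarTower K E F] [Algebra.IsAlgebraic K E] [FiniteDimensional L F] [IsGalois L F]
  [Algebra.EssFiniteType k L] {b n m r : ℕ}

theorem main (hK : ∀ a : L, IsAlgebraic K a → a ∈ Set.range (algebraMap K L))
    {x : Fin b ⊕ Fin n → L} (hx : IsTranscendenceBasis k x) {z : Fin b → K}
    (hz : IsTranscendenceBasis k z) {y : Fin n → F} (hy : IsTranscendenceBasis E y)
    (ρ : Lˣ →₀ ℝ) (Λ : Valuation K ℤᵐ⁰ → ℝ)
    {C : Fin m → Fin (n + 1) → E} (h0 : ∀ i, form y (C i) ≠ 0) {a : Fin m → ℕ} (hr : 0 < r)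
    (ha : ∑ i, a i = r * (n + 1)) (lc : ∀ v, IsPrime K v → 0 ≤ logDisc k x ρ v)
    (crep : ∀ (v : Valuation L ℤᵐ⁰) (v' : Valuation F ℤᵐ⁰) (e : ℕ), IsPrime K v → IsPrime K v' →
      Over v' v e → e * logDisc k x ρ v =
        1 + ordForm K y v' - ∑ i, (a i : ℝ) / r * ord v' (form y (C i)))
    (H : Subgroup (Equiv.Perm (Fin m))) (hH : ∀ π ∈ H, ∀ i, a (π i) = a i)
    (gal : ∀ σ : F ≃ₐ[L] F, ∃ π ∈ H, ∃ (g : F) (u : Fin m → E),
      ∀ i, σ (form y (C i)) = g * algebraMap E F (u i) * form y (C (π i))) :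
    ∃ τ : Kˣ →₀ ℝ,
      BFree k fun w => (r * Nat.card H : ℕ) * (moduli k x z ρ Λ w + prin τ w) := by
  have : CharZero K := charZero_of_injective_algebraMap (algebraMap k K).injective
  have : CharZero E := charZero_of_injective_algebraMap (algebraMap k E).injective
  have : Algebra.EssFiniteType k F := .comp k L F
  have : Algebra.EssFiniteType K L := .of_comp k K L
  have : Algebra.EssFiniteType K F := .of_comp k K F
  have : Algebra.EssFiniteType E F := .of_comp k E F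
  have hs0 := basis_sum (basis_empty (K := K) (F := E)) hy
  have ey : Sum.elim (algebraMap E F ∘ Empty.elim) y ∘ (Equiv.emptySum Empty (Fin n)).symm = y :=
    funext fun _ => rfl
  have hyK := (isTranscendenceBasis_equiv (Equiv.emptySum Empty (Fin n)).symm).2 hs0
  rw [ey] at hyK
  obtain ⟨y0, hy0⟩ := exists_basis_of_trdeg (k := K) (F := L) (ι := Fin n) (by
    rw [← trdeg_card hyK, ← trdeg_add_eq K L (A := F), trdeg_eq_zero (R := L), add_zero])
  have r0 : (0 : ℝ) < r := Nat.cast_pos.2 hr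
  have hsum : ∀ v' : Valuation F ℤᵐ⁰, r * ∑ i, (a i : ℝ) / r * ord v' (form y (C i)) =
      ((∑ i, a i * ord v' (form y (C i)) : ℤ) : ℝ) := fun v' => by
    rw [mul_sum]
    push_cast
    exact sum_congr rfl fun i _ => by field_simp
  obtain ⟨γ0, hγ0, hb0⟩ := semistable (r := r) hy ha h0 fun v' hv' => by
    obtain ⟨p1, e1⟩ := horiz (k := K) hv' basis_empty hy
    have e2 := ordForm_reindex p1 hs0 (Equiv.emptySum Empty (Fin n)).symm
    rw [ey] at e2
    obtain ⟨v, e, p2, o⟩ := p1.restrict_alg hy0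
    have h1 := mul_nonneg r0.le (crep v v' e p2 p1 o ▸ mul_nonneg e.cast_nonneg (lc v p2))
    rw [mul_sub, hsum, e2, e1, sub_nonneg] at h1
    exact_mod_cast h1
  obtain ⟨ψ, s, hs, hor, ver⟩ := core hK hx hz hy h0 ha hγ0 hb0 H hH gal
  obtain ⟨N, hN⟩ : ∃ N : ℝ, N = Nat.card H * r := ⟨_, rfl⟩
  have N0 : 0 < N := hN ▸ mul_pos (Nat.cast_pos.2 Nat.card_pos) r0
  have hρ : ∀ v : Valuation L ℤᵐ⁰,
      prin (ρ + Finsupp.single ψ N⁻¹) v = prin ρ v + N⁻¹ * ord v (ψ : L) := fun v => by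
    rw [prin_eq, map_add, Finsupp.linearCombination_single, smul_eq_mul, prin_eq]
  obtain ⟨τ, hτ⟩ := descend hy0 hK (ρ + Finsupp.single ψ N⁻¹) fun v hv => by
    obtain ⟨v', e, p1, o, -⟩ := exists_vert (F := F) hv hy0 basis_empty
    obtain ⟨p2, e1⟩ := horiz (k := k) p1 hz hyK
    have h1 := hor v' p2 p1
    have h2 := ram_eq p2 (horiz (k := k) hv hz hy0).1 o hx
    have h3 := crep v v' e hv p1 o
    have h4 := hsum v'
    rw [o.ord, e1] at h1
    have h5 := congrArg (Int.cast (R := ℝ)) h1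
    have h6 := congrArg (Int.cast (R := ℝ)) h2
    simp only [Int.cast_mul, Int.cast_sub, Int.cast_add, Int.cast_natCast, Int.cast_one] at h5 h6
    rw [logDisc] at h3
    have e0 : (0 : ℝ) < e := Nat.cast_pos.2 o.1
    rw [hρ]
    refine mul_left_cancel₀ (mul_pos e0 N0).ne' ?_
    rw [mul_add, mul_assoc _ N (N⁻¹ * _), mul_inv_cancel_left₀ N0.ne', hN]
    linear_combination h5 - Nat.card H * r * h3 - Nat.card H * r * h6 + Nat.card H * h4
  simp only [hρ] at hτ
  refine ⟨τ, s, hs, fun w hw => ?_⟩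
  obtain ⟨low, v0, e0, p0, o0, φ0, hφ0, up⟩ := ver w hw
  have low' : ∀ (v : Valuation L ℤᵐ⁰) (e : ℕ), IsPrime k v → Over v w e → ∀ φ ∈ s,
      e * (N * (1 + ordForm k z w) - ord w (φ : K)) ≤
        N * (1 + ordForm k x v) + ord v (ψ : L) := fun v e p o φ hφ => by
    rw [hN]
    exact_mod_cast low v e p o φ hφ
  have up' : N * (1 + ordForm k x v0) + ord v0 (ψ : L) ≤
      e0 * (N * (1 + ordForm k z w) - ord w (φ0 : K)) := by
    rw [hN]
    exact_mod_cast up
  have e00 : (0 : ℝ) < e0 := Nat.cast_pos.2 o0.1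
  have hi : N * N⁻¹ = 1 := mul_inv_cancel₀ N0.ne'
  have hl : lct k x ρ Λ w =
      1 + ordForm k z w - Λ w - prin τ w - N⁻¹ * ord w (φ0 : K) := by
    refine IsGreatest.csSup_eq ⟨fun v e p o => ?_, fun t ht => ?_⟩
    · refine le_of_mul_le_mul_left ?_ N0
      rw [logDisc]
      linear_combination low' v e p o φ0 hφ0 + N * hτ v w e o -
        (e * ord w (φ0 : K) + ord v (ψ : L)) * hi
    · have h1 := ht v0 e0 p0 o0
      rw [logDisc] at h1
      refine le_of_mul_le_mul_left ?_ (mul_pos N0 e00)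
      linear_combination up' + N * h1 - N * hτ v0 w e0 o0 +
        (e0 * ord w (φ0 : K) + ord v0 (ψ : L)) * hi
  have hm : ((r * Nat.card H : ℕ) : ℝ) * (moduli k x z ρ Λ w + prin τ w) = -ord w (φ0 : K) := by
    rw [moduli, hl, Nat.cast_mul, mul_comm (r : ℝ), ← hN]
    linear_combination -(ord w (φ0 : K) : ℝ) * hi
  simp only [hm]
  refine ⟨⟨φ0, hφ0, rfl⟩, ?_⟩
  rintro _ ⟨φ, hφ, rfl⟩
  have := le_of_mul_le_mul_left ((low' v0 e0 p0 o0 φ hφ).trans up') e00
  simp only
  linarith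

end Pool.Agent.Lib.MP_daea01_ag
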