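import Pool.Agent.Lib.MP_daea01_ag.Form

/-! The sections given by bracket monomials: lower bound, extremal divisor, Galois action. -/

namespace Pool.Agent.Lib.MP_daea01_ag

open WithZero Finset Matrix Pool.Agent.Lib.MP_5c318e_ag

variable {k E F : Type} [Field k] [Field E] [Field F] [Algebra k E] [Algebra E F] [Algebra k F]
  [IsScalarTower k E F] [CharZero k] {n m r e : ℕ} {β : Type} [Fintype β] [DecidableEq β]
  {z : β → E} {y : Fin n → F} {x : β ⊕ Fin n → F} {D : β ⊕ Fin n → Derivation k F F}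
  {N N' : Matrix (Fin (n + 1)) (Fin (n + 1)) E} {v : Valuation F ℤᵐ⁰} {P : Valuation E ℤᵐ⁰}
  {a : Fin m → ℕ} {C : Fin m → Fin (n + 1) → E} {γ : Fin r × Fin (n + 1) → Fin m}

/-- the section attached to a splitting -/
def sec (y : Fin n → F) (C : Fin m → Fin (n + 1) → E) (J : F)
    (γ : Fin r × Fin (n + 1) → Fin m) : F :=
  ∏ j, (lg y (of fun s => C (γ (j, s))) * J)

theorem sec_eq (hγ : γ ∈ Dec a r (n + 1)) (J : F) :
    sec y C J γ = algebraMap E F (br C γ) * (J ^ r / ∏ i, form y (C i) ^ a i) := by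
  rw [← Dec.prod hγ, br, map_prod, sec, prod_mul_distrib, prod_const, card_univ, Fintype.card_fin,
    mul_div_left_comm, mul_comm, ← prod_div_distrib]
  rfl

theorem lg_jac (hz : IsTranscendenceBasis k z) (hy : IsTranscendenceBasis E y)
    (h0 : ∀ s, form y (N s) ≠ 0) : lg y N * Jac D (Sum.elim (algebraMap E F ∘ z) y) =
      Jac D (Sum.elim (algebraMap E F ∘ z) (crd y N)) / ∏ s, crd y N s := by
  have : CharZero E := charZero_of_injective_algebraMap (algebraMap k E).injective
  obtain ⟨G0, h1⟩ := exists_dual hz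
  obtain ⟨D1, h2⟩ := exists_dual hy
  obtain ⟨D0, h3, h4⟩ := exists_split hz hy h1 h2
  have h5 := jac_swap (basis_sum hz hy) (D := D0) (by rw [jac_self h3]; exact one_ne_zero) D
    (Sum.elim (algebraMap E F ∘ z) (crd y N))
  rw [jac_self h3, mul_one, h4, jac_self h1, map_one, one_mul] at h5
  rw [h5, ← jac_lg h2 h0, div_mul_eq_mul_div]

theorem ord_lg (hz : IsTranscendenceBasis k z) (hy : IsTranscendenceBasis E y)
    (hx : IsTranscendenceBasis k x) (hD : Dual x D) (hv : IsPrime k v) (hN : N.det ≠ 0) :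
    ordForm k x v + ord v (lg y N * Jac D (Sum.elim (algebraMap E F ∘ z) y)) =
      ordForm k (Sum.elim (algebraMap E F ∘ z) (crd y N)) v - ∑ s, ord v (crd y N s) := by
  have : CharZero E := charZero_of_injective_algebraMap (algebraMap k E).injective
  have hb := crd_basis hy hN
  have h1 : ∀ s ∈ univ, crd y N s ≠ 0 := fun s _ => hb.1.ne_zero s
  rw [lg_jac hz hy (row_ne hy hN), ord_div (hD.jac_ne hx (basis_sum hz hb))
    (prod_ne_zero_iff.2 h1), ord_prod _ h1, ordForm_change hv hx hD (basis_sum hz hb)]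
  ring

theorem ord_sec (hz : IsTranscendenceBasis k z) (hy : IsTranscendenceBasis E y)
    (hx : IsTranscendenceBasis k x) (hD : Dual x D) (hb : br C γ ≠ 0) :
    ord v (sec y C (Jac D (Sum.elim (algebraMap E F ∘ z) y)) γ) =
      ∑ j, ord v (lg y (of fun s => C (γ (j, s))) * Jac D (Sum.elim (algebraMap E F ∘ z) y)) := by
  have : CharZero E := charZero_of_injective_algebraMap (algebraMap k E).injective
  exact ord_prod _ fun j _ => mul_ne_zero (lg_ne hy (prod_ne_zero_iff.1 hb j (mem_univ _)))
    (hD.jac_ne hx (basis_sum hz hy))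

/-- lower bound for the log discrepancy of every vertical divisor -/
theorem lower (hz : IsTranscendenceBasis k z) (hy : IsTranscendenceBasis E y)
    (hx : IsTranscendenceBasis k x) (hD : Dual x D) (hv : IsPrime k v) (hP : IsPrime k P)
    (h : Over v P e) (hb : br C γ ≠ 0) : r * (e * (1 + ordForm k z P)) ≤
      r * (1 + ordForm k x v) + ord v (sec y C (Jac D (Sum.elim (algebraMap E F ∘ z) y)) γ) := by
  have : CharZero E := charZero_of_injective_algebraMap (algebraMap k E).injective
  have h1 := sum_le_sum (s := univ) (f := fun _ : Fin r => e * (1 + ordForm k z P))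
    (g := fun j => 1 + ordForm k x v + ord v (lg y (of fun s => C (γ (j, s))) *
      Jac D (Sum.elim (algebraMap E F ∘ z) y))) fun j _ => by
      have hN : (of fun s => C (γ (j, s))).det ≠ 0 := prod_ne_zero_iff.1 hb j (mem_univ _)
      have h2 := ord_lg hz hy hx hD hv hN
      have h3 := vert_le hv hP h hz (crd_basis hy hN)
      linarith
  rw [ord_sec hz hy hx hD hb]
  simpa [sum_add_distrib] using h1

/-- the lower bound is attained -/
theorem extremal [Algebra.EssFiniteType k F] (hz : IsTranscendenceBasis k z)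
    (hy : IsTranscendenceBasis E y) (hx : IsTranscendenceBasis k x) (hD : Dual x D)
    (hP : IsPrime k P) (ha : ∑ i, a i = r * (n + 1)) (hγ : γ ∈ Dec a r (n + 1))
    (hb : br C γ ≠ 0) : ∃ (v : Valuation F ℤᵐ⁰) (e : ℕ), IsPrime k v ∧ Over v P e ∧
      ∃ γ ∈ Dec a r (n + 1), br C γ ≠ 0 ∧ r * (1 + ordForm k x v) +
        ord v (sec y C (Jac D (Sum.elim (algebraMap E F ∘ z) y)) γ) ≤
          r * (e * (1 + ordForm k z P)) := by
  have : CharZero E := charZero_of_injective_algebraMap (algebraMap k E).injective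
  obtain ⟨N, u, l, hN, hu, hC, γ, hγ, hl⟩ := lattice hP.1 C ha hγ hb
  have hc := crd_basis hy hN
  obtain ⟨v, e, hv, h, hG⟩ := exists_vert hP hz hc
  have m0 := row_ne hy hN
  have J0 := hD.jac_ne hx (basis_sum hz hy)
  have h1 : ∀ s, v (crd y N s) = 1 := fun s => by
    classical
    rw [← MvPolynomial.aeval_X (R := E) (crd y N) s]
    refine hG _ (fun q => ?_) ⟨Finsupp.single s 1, by simp⟩
    rw [MvPolynomial.coeff_X]
    split_ifs <;> simp
  have h2 : ∀ s, v (form y (N s)) = v (form y (N 0)) := fun s => by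
    refine Fin.cases rfl (fun j => ?_) s
    have := h1 j
    rwa [crd, map_div₀, div_eq_one_iff_eq ((Valuation.ne_zero_iff v).2 (m0 0))] at this
  have h3 : 1 + ordForm k x v + ord v (lg y N * Jac D (Sum.elim (algebraMap E F ∘ z) y)) =
      e * (1 + ordForm k z P) := by
    rw [add_assoc, ord_lg hz hy hx hD hv hN, sum_eq_zero fun s _ => ord_unit (h1 s), sub_zero,
      vert_eq hv hP h hz hc hG]
  let l' : Fin m → Fin (n + 1) → E := fun i => vecMul (fun b => (l i b : E)) N
  have h4 : ∀ j, blk l' (fun s => γ (j, s)) =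
      (blk l fun s => γ (j, s) : P.valuationSubring) * N.det := fun j => by
    rw [blk_change (u := fun _ => 1) (l := fun i b => (l i b : E)) (N := N)
      fun i => (one_smul _ _).symm, prod_const_one, one_mul]
    exact congrArg (· * N.det) (blk_map P.valuationSubring.subtype l _)
  have h5 : ∀ j, ((blk l fun s => γ (j, s) : P.valuationSubring) : E) ≠ 0 := fun j h => by
    simpa [h] using hl j
  have h6 : ∀ j, (of fun s => l' (γ (j, s))).det ≠ 0 := fun j =>
    (h4 j).trans_ne (mul_ne_zero (h5 j) hN)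
  have hb' : br C γ ≠ 0 := prod_ne_zero_iff.2 fun j _ => by
    rw [blk_change hC]
    refine mul_ne_zero (mul_ne_zero (prod_ne_zero_iff.2 fun s _ => hu _) ?_) hN
    exact (blk_map P.valuationSubring.subtype l _).trans_ne (h5 j)
  refine ⟨v, e, hv, h, γ, hγ, hb', ?_⟩
  have h7 := sum_le_sum (s := univ) (g := fun _ : Fin r => e * (1 + ordForm k z P))
    (f := fun j => 1 + ordForm k x v + ord v (lg y (of fun s => C (γ (j, s))) *
      Jac D (Sum.elim (algebraMap E F ∘ z) y))) fun j _ => by
      rw [← h3, lg_scale (N' := of fun s => C (γ (j, s))) (N := of fun s => l' (γ (j, s)))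
          (fun s => hu _) fun s => hC _,
        add_le_add_iff_left, ord_le_iff (mul_ne_zero (lg_ne hy hN) J0)
          (mul_ne_zero (lg_ne hy (h6 j)) J0), map_mul, map_mul]
      refine mul_le_mul_left ?_ _
      have h8 : v (algebraMap E F (of fun s => l' (γ (j, s))).det) = v (algebraMap E F N.det) := by
        rw [show (of fun s => l' (γ (j, s))).det = _ from h4 j, map_mul, map_mul, h.2, hl j,
          one_pow, one_mul]
      rw [lg, lg, map_div₀, map_div₀, h8, map_prod, map_prod]
      refine div_le_div_of_nonneg_left zero_le (pos_iff_ne_zero.2 (prod_ne_zero_iff.2 fun s _ =>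
        (Valuation.ne_zero_iff v).2 (row_ne hy (h6 j) s))) (prod_le_prod' fun s _ => ?_)
      rw [h2 s]
      refine form_le fun b => ?_
      rw [map_mul, h2 b]
      exact mul_le_of_le_one_left' (h.le_one.2 (l _ b).2)
  rw [ord_sec hz hy hx hD hb']
  simpa [sum_add_distrib] using h7

/-- automorphisms permute the sections -/
theorem sec_map (hz : IsTranscendenceBasis k z) (hy : IsTranscendenceBasis E y)
    (hx : IsTranscendenceBasis k x) (hD : Dual x D) (σ : F ≃ₐ[k] F) (h1 : ∀ i, σ (x i) = x i)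
    (h2 : ∀ i, σ (algebraMap E F (z i)) = algebraMap E F (z i)) (h0 : ∀ i, form y (C i) ≠ 0)
    {π : Fin m → Fin m} {g : F} {u : Fin m → E}
    (h : ∀ i, σ (form y (C i)) = g * algebraMap E F (u i) * form y (C (π i))) :
    σ (sec y C (Jac D (Sum.elim (algebraMap E F ∘ z) y)) γ) =
      sec y C (Jac D (Sum.elim (algebraMap E F ∘ z) y)) (π ∘ γ) := by
  have : CharZero F := charZero_of_injective_algebraMap (algebraMap k F).injective
  have hs : ∀ j f, D j (σ f) = σ (D j f) := fun j f =>
    frame_comm (k0 := kR k F) D (fun j => der_kR _) hD σ.toRingEquiv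
      (by rintro _ ⟨c, rfl⟩; exact ⟨c, (σ.commutes c).symm⟩) h1 j (alg_of_basis hx f)
  have h3 : ∀ i, g * algebraMap E F (u i) * form y (C (π i)) ≠ 0 := fun i =>
    h i ▸ (map_ne_zero σ).2 (h0 i)
  have hu : ∀ i, u i ≠ 0 := fun i e => h3 i (by simp [e])
  rw [sec, sec, map_prod]
  refine prod_congr rfl fun j _ => ?_
  let N1 : Matrix (Fin (n + 1)) (Fin (n + 1)) E := of fun s => u (γ (j, s)) • C (π (γ (j, s)))
  have h4 : ∀ s, σ (form y (C (γ (j, s)))) = g * form y (N1 s) := fun s => by
    rw [h, mul_assoc, ← form_smul]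
    rfl
  have g0 : g ≠ 0 := fun e => h3 (γ (j, 0)) (by simp [e])
  have h5 : ∀ s, σ (crd y (of fun s => C (γ (j, s))) s) = crd y N1 s := fun s => by
    rw [crd, crd, map_div₀, ← mul_div_mul_left (form y (N1 _)) _ g0, ← h4, ← h4]
    rfl
  rw [← lg_scale (N' := N1) (N := of fun s => C ((π ∘ γ) (j, s))) (fun s => hu _) fun s => rfl,
    lg_jac (N := of fun s => C (γ (j, s))) hz hy fun s => h0 _,
    lg_jac (N := N1) hz hy fun s => right_ne_zero_of_mul (h4 s ▸ (map_ne_zero σ).2 (h0 _)),
    map_div₀, map_prod, prod_congr rfl fun s _ => h5 s]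
  congr 1
  refine (jac_map D σ.toRingEquiv _ fun j f => hs j _).symm.trans ?_
  congr 1
  ext (i | i)
  · exact h2 i
  · exact h5 i

end Pool.Agent.Lib.MP_daea01_ag
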