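import Pool.Agent.Lib.MP_daea01_ag.Main

/-! The explicit bound and the uniform bound for weights in a rational dcc set. -/

namespace Pool.Agent.Lib.MP_daea01_ag

open WithZero Finset Pool.Agent.Lib.MP_5c318e_ag

theorem BFree.mul {k F : Type} [Field k] [Field F] [Algebra k F] {M : Valuation F ℤᵐ⁰ → ℝ}
    (h : BFree k M) (j : ℕ) : BFree k fun w => j * M w := by
  classical
  obtain ⟨s, hs, h⟩ := h
  refine ⟨s.image (· ^ j), hs.image _, fun w hw => ?_⟩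
  obtain ⟨⟨φ, hφ, h1⟩, h2⟩ := h w hw
  have h3 : ∀ φ : Fˣ, (-ord w ((φ ^ j : Fˣ) : F) : ℝ) = j * -ord w (φ : F) := fun φ => by
    rw [Units.val_pow_eq_pow_val, ord_pow]
    push_cast
    ring
  refine ⟨⟨φ ^ j, mem_coe.2 (mem_image_of_mem _ hφ), by simp only [h3, ← h1]⟩, ?_⟩
  rintro _ ⟨_, h4, rfl⟩
  obtain ⟨φ', hφ', rfl⟩ := mem_image.1 (mem_coe.1 h4)
  simp only [h3]
  exact mul_le_mul_of_nonneg_left (h2 ⟨φ', hφ', rfl⟩) j.cast_nonneg

theorem common_den (T : Set ℝ) (hT : T.Finite) (h : ∀ t ∈ T, 0 ≤ t ∧ ∃ q : ℚ, t = q) :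
    ∃ r : ℕ, 0 < r ∧ ∀ t ∈ T, ∃ a : ℕ, r * t = a := by
  induction T, hT using Set.Finite.induction_on with
  | empty => exact ⟨1, one_pos, by simp⟩
  | @insert t T _ _ ih =>
    obtain ⟨r, hr, h1⟩ := ih fun t ht => h t (Set.mem_insert_of_mem _ ht)
    obtain ⟨h0, q, rfl⟩ := h t (Set.mem_insert _ _)
    refine ⟨q.den * r, Nat.mul_pos q.pos hr, ?_⟩
    rintro t (rfl | ht)
    · obtain ⟨a, ha⟩ := Int.eq_ofNat_of_zero_le (Rat.num_nonneg.2 (Rat.cast_nonneg.1 h0))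
      refine ⟨a * r, ?_⟩
      have h2 : ((q.den * q : ℚ) : ℝ) = ((a : ℤ) : ℚ) := by rw [Rat.den_mul_eq_num, ha]
      push_cast at h2 ⊢
      linear_combination r * h2
    · obtain ⟨a, ha⟩ := h1 t ht
      exact ⟨q.den * a, by push_cast; rw [mul_assoc, ha]⟩

theorem dcc_bound (d : ℕ) {Γ : Set ℝ} (hq : ∀ t ∈ Γ, ∃ q : ℚ, t = q)
    (hd : ¬∃ f : ℕ → ℝ, StrictAnti f ∧ ∀ i, f i ∈ Γ) :
    ∃ r M : ℕ, 0 < r ∧ ∀ (m n : ℕ) (c : Fin m → ℝ), n ≤ d → (∀ i, c i ∈ Γ ∧ 0 < c i) →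
      ∑ i, c i = n + 1 → m ≤ M ∧ ∀ i, ∃ a : ℕ, r * c i = a := by
  have hw : (Γ ∩ Set.Ioi 0).IsWF := Set.isWF_iff_no_descending_seq.2 fun f hf h =>
    hd ⟨f, hf, fun i => (h i).1⟩
  obtain ⟨M, hM⟩ : ∃ M : ℕ, ∀ (m n : ℕ) (c : Fin m → ℝ), n ≤ d → (∀ i, c i ∈ Γ ∧ 0 < c i) →
      ∑ i, c i = n + 1 → m ≤ M := by
    rcases (Γ ∩ Set.Ioi 0).eq_empty_or_nonempty with h | h
    · refine ⟨0, fun m n c _ hc _ => ?_⟩
      by_contra hm
      exact Set.eq_empty_iff_forall_notMem.1 h _ (hc ⟨0, not_le.1 hm⟩)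
    · have h0 : 0 < hw.min h := (hw.min_mem h).2
      refine ⟨⌊(d + 1) / hw.min h⌋₊, fun m n c hn hc hs => Nat.le_floor ?_⟩
      have h1 := sum_le_sum (s := univ) fun i _ => hw.min_le h (hc i)
      have h2 : (n : ℝ) ≤ d := Nat.cast_le.2 hn
      rw [sum_const, card_univ, Fintype.card_fin, nsmul_eq_mul, hs] at h1
      rw [le_div_iff₀ h0]
      linarith
  let A : (m : ℕ) → ℕ → Set (Fin m → ℝ) := fun m n =>
    {c | (∀ i, c i ∈ Γ ∧ 0 < c i) ∧ ∑ i, c i = n + 1}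
  have hA : ∀ m n, (A m n).Finite := fun m n => by
    refine IsAntichain.finite_of_partiallyWellOrderedOn (r := (· ≤ ·)) (fun c hc c' hc' hne h => ?_)
      ((Set.IsPWO.pi fun _ : Fin m => hw.isPWO).mono fun c hc i _ => hc.1 i)
    exact hne (funext fun i => (sum_eq_sum_iff_of_le fun i _ => h i).1
      (hc.2.trans hc'.2.symm) i (mem_univ i))
  obtain ⟨r, hr, h⟩ := common_den (⋃ m ∈ Set.Iic M, ⋃ n ∈ Set.Iic d, ⋃ c ∈ A m n, Set.range c)
    ((Set.finite_Iic M).biUnion fun m _ => (Set.finite_Iic d).biUnion fun n _ =>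
      (hA m n).biUnion fun c _ => Set.finite_range c) fun t ht => by
      simp only [Set.mem_iUnion] at ht
      obtain ⟨m, -, n, -, c, hc, i, rfl⟩ := ht
      exact ⟨(hc.1 i).2.le, hq _ (hc.1 i).1⟩
  refine ⟨r, M, hr, fun m n c hn hc hs => ⟨hM m n c hn hc hs, fun i => h _ ?_⟩⟩
  simp only [Set.mem_iUnion]
  exact ⟨m, hM m n c hn hc hs, n, hn, c, ⟨hc, hs⟩, i, rfl⟩

variable {k K L F : Type} [Field k] [Field K] [Field L] [Field F]
  [Algebra k K] [Algebra k L] [Algebra k F] [Algebra K L] [Algebra K F] [Algebra L F]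
  [IsScalarTower k K L] [IsScalarTower k K F] [IsScalarTower k L F] [IsScalarTower K L F]
  [FiniteDimensional L F] {d b n m r : ℕ}

omit [Algebra K L] [IsScalarTower k K L] [IsScalarTower K L F] in
theorem dim_eq {x : Fin d → L} (hx : IsTranscendenceBasis k x)
    {z : Fin b → K} (hz : IsTranscendenceBasis k z) {y : Fin n → F}
    (hy : IsTranscendenceBasis K y) : b + n = d := by
  have h := (trdeg_card (basis_sum hz hy)).symm.trans (trdeg_card (hx.algebraMap_comp (A := F)))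
  rw [Fintype.card_sum, Fintype.card_fin, Fintype.card_fin, Fintype.card_fin] at h
  exact_mod_cast h

theorem explicit [CharZero k] [IsGalois L F] (hfg : (⊤ : IntermediateField k L).FG)
    (hK : ∀ a : L, IsAlgebraic K a → a ∈ Set.range (algebraMap K L))
    {x : Fin d → L} (hx : IsTranscendenceBasis k x) {z : Fin b → K}
    (hz : IsTranscendenceBasis k z) {y : Fin n → F} (hy : IsTranscendenceBasis K y)
    (ρ : Lˣ →₀ ℝ) (Λ : Valuation K ℤᵐ⁰ → ℝ) {C : Fin m → Fin (n + 1) → F}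
    (hC : ∀ i j, IsAlgebraic K (C i j)) {l : Fin m → F}
    (hl : ∀ i, l i = C i 0 + ∑ j, C i j.succ * y j) (h0 : ∀ i, l i ≠ 0) {c : Fin m → ℝ}
    (hc : ∑ i, c i = n + 1) (lc : ∀ v, IsPrime K v → 0 ≤ logDisc k x ρ v)
    (crep : ∀ (v : Valuation L ℤᵐ⁰) (v' : Valuation F ℤᵐ⁰) (e : ℕ), IsPrime K v → IsPrime K v' →
      Over v' v e → e * logDisc k x ρ v = 1 + ordForm K y v' - ∑ i, c i * ord v' (l i))
    (H : Subgroup (Equiv.Perm (Fin m))) (hH : ∀ π ∈ H, ∀ i, c (π i) = c i)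
    (gal : ∀ σ : F ≃ₐ[L] F, ∃ π ∈ H, ∃ g : F, ∀ i, ∃ u : F, IsAlgebraic K u ∧
      σ (l i) = g * u * l (π i)) (hr : 0 < r) (ha : ∀ i, ∃ a : ℕ, r * c i = a) :
    ∃ τ : Kˣ →₀ ℝ,
      BFree k fun w => (r * Nat.card H : ℕ) * (moduli k x z ρ Λ w + prin τ w) := by
  have : Algebra.EssFiniteType k L := IntermediateField.fg_top_iff.1 hfg
  obtain rfl := dim_eq hx hz hy
  let E := algebraicClosure K F
  have : IsScalarTower k E F := .of_algebraMap_eq fun _ => rfl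
  choose a ha using ha
  have r0 : (r : ℝ) ≠ 0 := Nat.cast_ne_zero.2 hr.ne'
  have hc' : ∀ i, c i = a i / r := fun i => by rw [← ha, mul_div_cancel_left₀ _ r0]
  let C' : Fin m → Fin (n + 1) → E := fun i j => ⟨C i j, mem_algebraicClosure_iff.2 (hC i j)⟩
  have hl' : ∀ i, form y (C' i) = l i := fun i => by rw [form_eq, hl]; rfl
  have hx' := (isTranscendenceBasis_equiv finSumFinEquiv).2 hx
  have hyK : IsPrime K (F := L) ≤ IsPrime k := fun v hv => by
    obtain ⟨y0, hy0⟩ := exists_basis_of_trdeg (k := K) (F := L) (ι := Fin n) (by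
      rw [← trdeg_card hy, ← trdeg_add_eq K L (A := F), trdeg_eq_zero (R := L), add_zero])
    exact (horiz hv hz hy0).1
  have hd : ∀ v, IsPrime k v → logDisc k (x ∘ finSumFinEquiv) ρ v = logDisc k x ρ v :=
    fun v hv => by rw [logDisc, ordForm_reindex hv hx, logDisc]
  obtain ⟨τ, hτ⟩ := main (E := E) (a := a) (C := C') hK hx' hz
    ((Algebra.IsAlgebraic.isTranscendenceBasis_iff K E).1 hy) ρ Λ (fun i => hl' i ▸ h0 i) hr
    (by
      have h1 : r * ∑ i, c i = ∑ i, (a i : ℝ) := by simp only [mul_sum, ha]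
      rw [hc] at h1
      exact_mod_cast h1.symm)
    (fun v hv => by rw [hd v (hyK v hv)]; exact lc v hv)
    (fun v v' e p p' o => by
      rw [hd v (hyK v p), crep v v' e p p' o]
      simp only [hl', hc'])
    H (fun π hπ i => by
      have h1 := ha (π i)
      rw [hH π hπ, ha] at h1
      exact_mod_cast h1.symm)
    fun σ => by
      obtain ⟨π, hπ, g, h⟩ := gal σ
      choose u hu h using h
      exact ⟨π, hπ, g, fun i => ⟨u i, mem_algebraicClosure_iff.2 (hu i)⟩, fun i => by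
        rw [hl', hl', h]; rfl⟩
  have h2 : lct k (x ∘ finSumFinEquiv) ρ Λ = lct k x ρ Λ := funext fun w => by
    rw [lct, lct]
    congr 1
    ext t
    exact forall₃_congr fun v e hv => by rw [hd v hv]
  simp only [moduli, h2] at hτ
  exact ⟨τ, hτ⟩

end Pool.Agent.Lib.MP_daea01_ag
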