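import Pool.Agent.Lib.MP_daea01_ag.Defs
import Pool.Agent.Lib.MP_5c318e_ag.A.Split

/-! Orders of functions and of top forms along prime divisors. -/

namespace Pool.Agent.Lib.MP_daea01_ag

open WithZero Pool.Agent.Lib.MP_5c318e_ag

variable {k F : Type} [Field k] [Field F] [Algebra k F] {v : Valuation F ℤᵐ⁰}

section ord

variable {f g : F}

theorem val_eq (hf : f ≠ 0) : v f = exp (-ord v f) := by
  rw [ord, neg_neg, exp_log ((Valuation.ne_zero_iff v).2 hf)]

theorem ord_of {n : ℤ} (h : v f = exp (-n)) : ord v f = n := by rw [ord, h, log_exp, neg_neg]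

theorem ord_one : ord v (1 : F) = 0 := by simp [ord]

theorem ord_unit (h : v f = 1) : ord v f = 0 := by simp [ord, h]

theorem ord_mul (hf : f ≠ 0) (hg : g ≠ 0) : ord v (f * g) = ord v f + ord v g :=
  ord_of (by rw [map_mul, val_eq hf, val_eq hg, ← exp_add, neg_add])

theorem ord_zpow (f : F) (n : ℤ) : ord v (f ^ n) = n * ord v f := by
  rw [ord, ord, map_zpow₀, log_zpow, smul_eq_mul, mul_neg]

theorem ord_pow (f : F) (n : ℕ) : ord v (f ^ n) = n * ord v f := by
  rw [← zpow_natCast, ord_zpow]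

theorem ord_inv (f : F) : ord v f⁻¹ = -ord v f := by rw [← zpow_neg_one, ord_zpow, neg_one_mul]

theorem ord_div (hf : f ≠ 0) (hg : g ≠ 0) : ord v (f / g) = ord v f - ord v g := by
  rw [div_eq_mul_inv, ord_mul hf (inv_ne_zero hg), ord_inv, sub_eq_add_neg]

theorem ord_prod {α : Type*} (s : Finset α) {f : α → F} (h : ∀ a ∈ s, f a ≠ 0) :
    ord v (∏ a ∈ s, f a) = ∑ a ∈ s, ord v (f a) := by
  classical
  induction s using Finset.induction_on with
  | empty => simp [ord_one]
  | insert a s ha ih =>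
    have h' := fun b hb => h b (Finset.mem_insert_of_mem hb)
    rw [Finset.prod_insert ha, Finset.sum_insert ha, ord_mul (h a (Finset.mem_insert_self _ _))
      (Finset.prod_ne_zero_iff.2 h'), ih h']

theorem ord_le_iff (hf : f ≠ 0) (hg : g ≠ 0) : ord v g ≤ ord v f ↔ v f ≤ v g := by
  rw [val_eq hf, val_eq hg, exp_le_exp, neg_le_neg_iff]

theorem ord_nonneg (hf : f ≠ 0) : 0 ≤ ord v f ↔ v f ≤ 1 := by
  rw [← ord_one (v := v), ord_le_iff hf one_ne_zero, map_one]

theorem ord_pos (hf : f ≠ 0) : 0 < ord v f ↔ v f < 1 := by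
  rw [← not_le, ← ord_one (v := v), ord_le_iff one_ne_zero hf, map_one, not_le]

theorem ord_eq_zero (hf : f ≠ 0) (h : ord v f = 0) : v f = 1 := by rw [val_eq hf, h]; simp

end ord

theorem eqv (v : Valuation F ℤᵐ⁰) : v.valuationSubring.valuation.IsEquiv v :=
  v.isEquiv_valuation_valuationSubring.symm

theorem rind_iff {κ : Type} {y : κ → F} :
    RIndC k v.valuationSubring.valuation y ↔ RIndC k v y :=
  forall₂_congr fun _ _ => (eqv v).eq_one_iff_eq_one

omit [Field k] [Algebra k F] in
theorem grp_of {t : F} (ht : v t = exp (-1)) {f : F} (hf : f ≠ 0) : v f = v t ^ ord v f := by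
  rw [val_eq hf, ht, ← exp_zsmul]
  simp

omit [Field k] [Algebra k F] in
theorem unif_lt {t : F} (ht : v t = exp (-1)) : t ≠ 0 ∧ v t < 1 :=
  ⟨by rintro rfl; simp at ht; exact exp_ne_zero ht.symm, by rw [ht, ← exp_zero, exp_lt_exp]; simp⟩

omit [Field k] [Algebra k F] in
theorem grp_sub {t : F} (ht : v t = exp (-1)) (f : F) (hf : f ≠ 0) :
    ∃ n : ℤ, v.valuationSubring.valuation f = v.valuationSubring.valuation t ^ n :=
  ⟨ord v f, by rw [← map_zpow₀, (eqv v).eq_iff, map_zpow₀]; exact grp_of ht hf⟩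

theorem IsPrime.div (h : IsPrime k v) : IsDivisorial k F v.valuationSubring := by
  obtain ⟨hs, n, y, h1, h2⟩ := h
  obtain ⟨t, ht⟩ := hs (exp (-1))
  exact ⟨Br_dvr v (unif_lt ht).1 (unif_lt ht).2 fun f hf => ⟨_, grp_of ht hf⟩, n, y, h1,
    rind_iff.2 h2⟩

theorem isPrime_of (hs : Function.Surjective v) (h : IsDivisorial k F v.valuationSubring) :
    IsPrime k v := by
  obtain ⟨-, n, y, h1, h2⟩ := h
  exact ⟨hs, n, y, h1, rind_iff.1 h2⟩

theorem IsPrime.const (h : IsPrime k v) {a : k} (ha : a ≠ 0) : v (algebraMap k F a) = 1 := by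
  obtain ⟨-, n, y, -, h2⟩ := h
  exact RIndC.const (C := k) h2 ha

omit [Field k] [Algebra k F] in
theorem exists_norm (O : ValuationSubring F) [IsDiscreteValuationRing O] :
    ∃ v : Valuation F ℤᵐ⁰, Function.Surjective v ∧ v.valuationSubring = O := by
  refine ⟨(IsDiscreteValuationRing.maximalIdeal O).valuation F,
    IsDedekindDomain.HeightOneSpectrum.valuation_surjective _ _, ?_⟩
  ext x
  rw [Valuation.mem_valuationSubring_iff]
  constructor
  · intro h
    obtain ⟨a, rfl⟩ := IsDiscreteValuationRing.exists_lift_of_le_one h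
    exact a.2
  · intro h
    exact IsDedekindDomain.HeightOneSpectrum.valuation_le_one _ (⟨x, h⟩ : O)

variable {ι κ : Type} [Fintype ι] [DecidableEq ι] [Fintype κ] [DecidableEq κ]

omit [Fintype ι] [DecidableEq ι] in
theorem adp_unif {c : ι → F} {i0 : ι} (hs : Function.Surjective v)
    (h : Adp k v.valuationSubring c i0) : ord v (c i0) = 1 := by
  obtain ⟨t, ht⟩ := hs (exp (-1))
  obtain ⟨n, hn⟩ := h.grp t (unif_lt ht).1
  rw [← map_zpow₀, (eqv v).eq_iff] at hn
  have h1 : (1 : ℤ) = n * ord v (c i0) := by rw [← ord_zpow, ord, ← hn, ht]; simp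
  have h2 := (ord_pos (h.ne_zero i0)).2 ((eqv v).lt_one_iff_lt_one.1 h.lt)
  exact Int.eq_one_of_mul_eq_one_left h2.le h1.symm

omit [DecidableEq ι] in
theorem trdeg_card {x : ι → F} (hx : IsTranscendenceBasis k x) :
    Algebra.trdeg k F = Fintype.card ι := by
  rw [← hx.cardinalMk_eq_trdeg, Cardinal.mk_fintype]

variable [CharZero k]

/-- `D` is the frame dual to `x` -/
def Dual (x : ι → F) (D : ι → Derivation k F F) : Prop :=
  ∀ i j, D i (x j) = if j = i then 1 else 0

omit [Fintype ι] in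
theorem exists_dual {x : ι → F} (hx : IsTranscendenceBasis k x) :
    ∃ D : ι → Derivation k F F, Dual x D := der_dual_exists hx.1

variable {x c f : ι → F} {i0 : ι} {D : ι → Derivation k F F}

theorem Dual.jac_ne (hD : Dual x D) (hx : IsTranscendenceBasis k x)
    (hf : IsTranscendenceBasis k f) : Jac D f ≠ 0 := (isFr_dual hx hD).jac_ne hf.1

theorem basis_of_jac (hx : IsTranscendenceBasis k x) (h : Jac D f ≠ 0) :
    IsTranscendenceBasis k f := by
  have : CharZero F := charZero_of_injective_algebraMap (algebraMap k F).injective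
  have hi : AlgebraicIndependent k f :=
    indep_kR_iff.1 (indep_of_jac (k0 := kR k F) D (fun j => der_kR _) h)
  exact hi.isTranscendenceBasis_of_lift_trdeg_le_of_finite (by simp [trdeg_card hx])

theorem ordForm_adp (h : Adp k v.valuationSubring c i0) (hx : IsTranscendenceBasis k x)
    (hD : Dual x D) : ordForm k x v = -ord v (Jac D c) := by
  have h0 := hD.jac_ne hx h.basis
  refine IsGreatest.csSup_eq ⟨⟨D, c, hD, fun j => h.mem j, val_eq h0⟩, ?_⟩
  rintro N ⟨D', g, hD', hg, hN⟩
  obtain rfl : D = D' := funext fun i => der_ext_basis hx _ _ fun j => by rw [hD, hD']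
  have h1 := (eqv v).le_iff_le.1 (h.jac_le D (f := g) hg)
  rwa [show v (Jac D g) = exp N from hN, val_eq h0, exp_le_exp] at h1

theorem ordForm_change (hv : IsPrime k v) (hx : IsTranscendenceBasis k x) (hD : Dual x D)
    (hf : IsTranscendenceBasis k f) : ordForm k f v = ordForm k x v + ord v (Jac D f) := by
  obtain ⟨c, i0, h⟩ := hv.div.exists_adp (trdeg_card hx)
  obtain ⟨E, hE⟩ := exists_dual hf
  have h1 := jac_swap hf (hD.jac_ne hx hf) E c
  rw [jac_self hE, mul_one] at h1
  rw [ordForm_adp h hx hD, ordForm_adp h hf hE, ← h1,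
    ord_mul (hE.jac_ne hf h.basis) (hD.jac_ne hx hf)]
  ring

theorem ordForm_reindex (hv : IsPrime k v) (hx : IsTranscendenceBasis k x) (e : κ ≃ ι) :
    ordForm k (x ∘ e) v = ordForm k x v := by
  obtain ⟨c, i0, h⟩ := hv.div.exists_adp (trdeg_card hx)
  obtain ⟨D, hD⟩ := exists_dual hx
  rw [ordForm_adp h hx hD, ordForm_adp (D := fun j => D (e j)) (h.reindex e)
    ((isTranscendenceBasis_equiv e).2 hx) fun i j => by simp [hD (e i) (e j)]]
  exact congrArg (fun t => -ord v t) (jac_equiv D c e)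

/-- a logarithmic form has at most a simple pole -/
theorem log_le (hv : IsPrime k v) (hf : IsTranscendenceBasis k f) :
    ∑ a, ord v (f a) ≤ 1 + ordForm k f v := by
  obtain ⟨c, i0, h⟩ := hv.div.exists_adp (trdeg_card hf)
  obtain ⟨D, hD⟩ := exists_dual hf
  have h0 := hD.jac_ne hf h.basis
  have h1 := h.jac_log D f
  have h2 : ∀ a ∈ Finset.univ, f a ≠ 0 := fun a _ => hf.1.ne_zero a
  have h3 := Finset.prod_ne_zero_iff.2 h2
  rw [jac_self hD, map_one, one_mul, ← map_prod, ← map_mul, (eqv v).le_iff_le,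
    ← ord_le_iff (h.ne_zero i0) (mul_ne_zero h0 h3), ord_mul h0 h3, ord_prod _ h2,
    adp_unif hv.1 h] at h1
  rw [ordForm_adp h hf hD]
  omega

omit [CharZero k] in
theorem adp_update (hf : IsTranscendenceBasis k f) {t : F} (ht : v t = exp (-1))
    (hres : RIndC k v fun j : {j // j ≠ i0} => f j) :
    Adp k v.valuationSubring (Function.update f i0 t) i0 := by
  refine adp_of_res ?_ ?_ ?_ ?_ (trdeg_card hf).le
  · rw [Function.update_self]; exact (unif_lt ht).1
  · rw [Function.update_self]; exact (eqv v).lt_one_iff_lt_one.2 (unif_lt ht).2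
  · rw [Function.update_self]; exact grp_sub ht
  · refine rind_iff.2 ((congrArg (RIndC k v) ?_).mp hres)
    ext j
    rw [Function.update_of_ne j.2]

/-- the pole is simple along the divisor of the first coordinate -/
theorem log_eq (hs : Function.Surjective v) (hf : IsTranscendenceBasis k f) (hlt : v (f i0) < 1)
    (hres : RIndC k v fun j : {j // j ≠ i0} => f j) : 1 + ordForm k f v = ord v (f i0) := by
  obtain ⟨t, ht⟩ := hs (exp (-1))
  have h := adp_update hf ht hres
  obtain ⟨D, hD⟩ := exists_dual hf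
  have h0 := hD.jac_ne hf h.basis
  have h1 := h.ram D (hf.1.ne_zero i0) ((eqv v).lt_one_iff_lt_one.2 hlt).ne
  rw [Function.update_idem, Function.update_eq_self, Function.update_self, jac_self hD, map_one,
    one_mul, ← map_mul, (eqv v).eq_iff] at h1
  have h2 : ord v t = ord v (f i0 * Jac D (Function.update f i0 t)) := by rw [ord, h1, ord]
  rw [ord_of ht, ord_mul (hf.1.ne_zero i0) h0] at h2
  rw [ordForm_adp h hf hD]
  omega

section tower

variable {K : Type} [Field K] [Algebra k K] [Algebra K F] [IsScalarTower k K F]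
  {w : Valuation K ℤᵐ⁰} {e : ℕ}

omit [Field k] [Algebra k F] [CharZero k] [Algebra k K] [IsScalarTower k K F] in
theorem Over.ord (h : Over v w e) (a : K) : ord v (algebraMap K F a) = e * ord w a := by
  rw [MP_daea01_ag.ord, h.2, ← map_pow]
  exact ord_pow a e

omit [Field k] [Algebra k F] [CharZero k] [Algebra k K] [IsScalarTower k K F] in
theorem Over.le_one (h : Over v w e) {a : K} : v (algebraMap K F a) ≤ 1 ↔ w a ≤ 1 := by
  rw [h.2, pow_le_one_iff_of_nonneg zero_le h.1.ne']

omit [CharZero k] in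
theorem Over.rind (h : Over v w e) {α : Type} {u : α → K} (hu : RIndC k w u) :
    RIndC k v (algebraMap K F ∘ u) := fun p hp => by
  rw [MvPolynomial.aeval_algebraMap_apply, h.2, hu p hp, one_pow]

omit [Field k] [Algebra k F] [CharZero k] [Algebra k K] [IsScalarTower k K F] in
theorem over_of (hs : Function.Surjective w) (h : ∀ a, v (algebraMap K F a) ≤ 1 ↔ w a ≤ 1) :
    ∃ e, Over v w e := by
  obtain ⟨t, ht⟩ := hs (exp (-1))
  have h0 := (map_ne_zero (algebraMap K F)).2 (unif_lt ht).1
  have he : (v.comap (algebraMap K F)).IsEquiv w := Valuation.isEquiv_iff_val_le_one.2 (h _)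
  have h1 := (ord_pos h0).2 (he.lt_one_iff_lt_one.2 (unif_lt ht).2)
  refine ⟨(ord v (algebraMap K F t)).toNat, by omega, fun a => ?_⟩
  by_cases ha : a = 0
  · rw [ha, map_zero, map_zero, map_zero, zero_pow (by omega)]
  have h2 := grp_of ht ha
  rw [← map_zpow₀, ← he.eq_iff, Valuation.comap_apply, Valuation.comap_apply, map_zpow₀,
    map_zpow₀, val_eq h0] at h2
  rw [h2, val_eq ha, ← exp_zsmul, ← exp_nsmul]
  congr 1
  simp only [smul_eq_mul, nsmul_eq_mul, Int.toNat_of_nonneg h1.le]
  ring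

variable {z : ι → K} {g : κ → F}

omit [CharZero k] [DecidableEq ι] [DecidableEq κ] in
/-- restriction of a vertical prime divisor -/
theorem IsPrime.restrict (hv : IsPrime k v) (hz : IsTranscendenceBasis k z)
    (hg : IsTranscendenceBasis K g) (hK : ¬∀ a : K, v (algebraMap K F a) ≤ 1) :
    ∃ (w : Valuation K ℤᵐ⁰) (e : ℕ), IsPrime k w ∧ Over v w e := by
  have h1 := hv.div.comap (trdeg_card hz) (trdeg_card hg) hK
  have := h1.1
  obtain ⟨w, hs, hw⟩ := exists_norm (v.valuationSubring.comap (algebraMap K F))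
  obtain ⟨e, he⟩ := over_of (v := v) hs fun a => by
    rw [← Valuation.mem_valuationSubring_iff w, hw]; rfl
  exact ⟨w, e, isPrime_of hs (hw ▸ h1), he⟩

/-- Jacobians of split families for the frame dual to a split basis -/
theorem exists_split (hz : IsTranscendenceBasis k z) (hg : IsTranscendenceBasis K g)
    {G0 : ι → Derivation k K K} (h0 : Dual z G0) {E : κ → Derivation K F F} (hE : Dual g E) :
    ∃ D : ι ⊕ κ → Derivation k F F, Dual (Sum.elim (algebraMap K F ∘ z) g) D ∧
      ∀ (z' : ι → K) (g' : κ → F), Jac D (Sum.elim (algebraMap K F ∘ z') g') =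
        algebraMap K F (Jac G0 z') * Jac E g' := by
  obtain ⟨G, hl⟩ := exists_lifts (F := F) G0
  have hb := basis_sum hz hg
  obtain ⟨D, hD⟩ := exists_dual hb
  refine ⟨D, hD, fun z' g' => ?_⟩
  have h1 : Jac (splitD G E) (Sum.elim (algebraMap K F ∘ z) g) = 1 := by
    rw [jac_split hl, jac_self h0, jac_self hE, map_one, mul_one]
  have h2 := jac_swap hb (h1 ▸ one_ne_zero) D (Sum.elim (algebraMap K F ∘ z') g')
  rwa [h1, jac_self hD, mul_one, mul_one, jac_split hl] at h2

theorem vert_change (hv : IsPrime k v) (hw : IsPrime k w) (h : Over v w e)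
    (hz : IsTranscendenceBasis k z) (hg : IsTranscendenceBasis K g) {c : ι → K} {i0 : ι}
    (hc : Adp k w.valuationSubring c i0) :
    ordForm k (Sum.elim (algebraMap K F ∘ z) g) v =
      ordForm k (Sum.elim (algebraMap K F ∘ c) g) v + e * ordForm k z w := by
  have : CharZero K := charZero_of_injective_algebraMap (algebraMap k K).injective
  obtain ⟨G0, h0⟩ := exists_dual hc.basis
  obtain ⟨E, hE⟩ := exists_dual hg
  obtain ⟨D, hD, hJ⟩ := exists_split hc.basis hg h0 hE
  rw [ordForm_change hv (basis_sum hc.basis hg) hD (basis_sum hz hg), hJ, jac_self hE, mul_one,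
    h.ord, ordForm_change hw hc.basis h0 hz, ordForm_adp hc hc.basis h0, jac_self h0, ord_one]
  ring

theorem vert_le (hv : IsPrime k v) (hw : IsPrime k w) (h : Over v w e)
    (hz : IsTranscendenceBasis k z) (hg : IsTranscendenceBasis K g) :
    e * (1 + ordForm k z w) + ∑ a, ord v (g a) ≤
      1 + ordForm k (Sum.elim (algebraMap K F ∘ z) g) v := by
  obtain ⟨c, i0, hc⟩ := hw.div.exists_adp (trdeg_card hz)
  have h1 := log_le hv (basis_sum hc.basis hg)
  have h2 : ∑ a, ord v (algebraMap K F (c a)) = e := by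
    rw [Finset.sum_eq_single i0, h.ord, adp_unif hw.1 hc, mul_one]
    · intro a _ ha
      rw [h.ord, ord_unit ((eqv w).eq_one_iff_eq_one.1 (hc.unit ha)), mul_zero]
    · simp
  rw [Fintype.sum_sum_type] at h1
  simp only [Sum.elim_inl, Sum.elim_inr, Function.comp_apply, h2] at h1
  rw [vert_change hv hw h hz hg hc]
  linarith

/-- a horizontal prime divisor -/
theorem horiz (hv : IsPrime K v) (hz : IsTranscendenceBasis k z)
    (hg : IsTranscendenceBasis K g) :
    IsPrime k v ∧ ordForm k (Sum.elim (algebraMap K F ∘ z) g) v = ordForm K g v := by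
  have : CharZero K := charZero_of_injective_algebraMap (algebraMap k K).injective
  obtain ⟨c, i0, hc⟩ := hv.div.exists_adp (trdeg_card hg)
  obtain ⟨G0, h0⟩ := exists_dual hz
  obtain ⟨E, hE⟩ := exists_dual hg
  obtain ⟨D, hD, hJ⟩ := exists_split hz hg h0 hE
  refine ⟨isPrime_of hv.1 (hc.horiz hz).divisorial, ?_⟩
  rw [ordForm_adp (hc.horiz hz) (basis_sum hz hg) hD, hJ, jac_self h0, map_one, one_mul,
    ordForm_adp hc hg hE]

end tower

end Pool.Agent.Lib.MP_daea01_ag
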